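import Mathlib

set_option autoImplicit false

open MeasureTheory Set Topology TopologicalSpace
open scoped ContDiff NNReal Distributions Manifold

/-! # Leafwise complex cycles and pseudoholomorphic curves for flat foliations

The manifold is a (finite-dimensional) real normed vector space `M`, foliated by the translates of
a linear subspace `T`, with a constant leafwise complex structure `J`. -/

namespace Pool.Agent.Y525.Leaf

section General

variable {M : Type} [NormedAddCommGroup M] [NormedSpace ℝ M]

/-- The space `Ω^p_c(U)` of compactly supported smooth `p`-forms on the open set `U`, with its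
`C^∞` topology: the space of test functions on `U` with values in the alternating `p`-linear
forms. -/
abbrev TestForm (U : Opens M) (p : ℕ) : Type := 𝓓(U, M [⋀^Fin p]→L[ℝ] ℝ)

/-- The `p`-currents on `U`: continuous linear functionals on `Ω^p_c(U)`. -/
abbrev Current (U : Opens M) (p : ℕ) : Type := TestForm U p →L[ℝ] ℝ

/-- The inclusion `Ω^p_c(U) ⊆ Ω^p_c(M)`, extension by zero. -/
noncomputable def extendZero {U : Opens M} {p : ℕ} (α : TestForm U p) :
    TestForm (⊤ : Opens M) p :=
  ⟨α, α.contDiff, α.hasCompactSupport, fun _ _ => trivial⟩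

theorem extDeriv_eq_comp (β : M → M [⋀^Fin 1]→L[ℝ] ℝ) : extDeriv β =
    (ContinuousAlternatingMap.alternatizeUncurryFinCLM ℝ M ℝ (n := 1)) ∘ fderiv ℝ β :=
  rfl

/-- The exterior derivative of a compactly supported smooth one-form. -/
noncomputable def d {U : Opens M} (β : TestForm U 1) : TestForm U 2 :=
  ⟨extDeriv β,
    by
      rw [extDeriv_eq_comp]
      exact (ContinuousLinearMap.contDiff _).comp (β.contDiff.fderiv_right (by simp)),
    by
      rw [extDeriv_eq_comp]
      exact (β.hasCompactSupport.fderiv ℝ).comp_left (map_zero _),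
    by
      rw [extDeriv_eq_comp]
      exact (tsupport_comp_subset (map_zero _) _).trans
        ((tsupport_fderiv_subset ℝ).trans β.tsupport_subset)⟩

/-- `c` is a cycle: `c (dβ) = 0` for every compactly supported smooth one-form `β`. -/
def IsCycle {U : Opens M} (c : Current U 2) : Prop := ∀ β : TestForm U 1, c (d β) = 0

variable (M) in
/-- A foliation of `M` by the translates of the linear subspace `T`, with the constant leafwise
complex structure which is the restriction of `J` to `T`. -/
structure FlatLeaves where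
  /-- the tangent space of the leaves -/
  T : Submodule ℝ M
  /-- the leafwise complex structure (only its values on `T` are used) -/
  J : M →L[ℝ] M
  map_mem : ∀ v ∈ T, J v ∈ T
  map_map : ∀ v ∈ T, J (J v) = -v

/-- `c` is a `C`-current: it lies in the closure (for the weak topology of the space of
`2`-currents) of the convex cone generated by the Dirac currents `α ↦ α_z (v ∧ J v)` with `z` in
`U` and `v` tangent to the leaf. That is: for all finitely many test forms and all `ε > 0`, some
finite nonnegative combination of such Dirac currents is `ε`-close to `c` on each of the forms. -/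
def IsCCurrent (𝓕 : FlatLeaves M) {U : Opens M} (c : Current U 2) : Prop :=
  ∀ (N : ℕ) (α : Fin N → TestForm U 2), ∀ ε > 0,
    ∃ (m : ℕ) (a : Fin m → ℝ≥0) (z v : Fin m → M), (∀ j, z j ∈ U ∧ v j ∈ 𝓕.T) ∧
      ∀ i, |c (α i) - ∑ j, a j * α i (z j) ![v j, 𝓕.J (v j)]| < ε

/-- The expression of the map `u : Σ → M` in the chart of the Riemann surface `Σ` at `p`. -/
noncomputable def inChart {S : Type} [TopologicalSpace S] [ChartedSpace ℂ S] (u : S → M) (p : S) (w : ℂ) : M :=
  u ((chartAt ℂ p).symm w)

/-- `u : Σ → M` is a proper, somewhere injective pseudoholomorphic map from the Riemann surface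
`Σ` to `U` with image in one leaf. The equation `du ∘ j = J ∘ du` is expressed in the charts of
`Σ`, where `j` is multiplication by `i`. -/
structure IsCurve (𝓕 : FlatLeaves M) (U : Opens M) {S : Type} [TopologicalSpace S]
    [ChartedSpace ℂ S] (u : S → M) : Prop where
  mem : ∀ s, u s ∈ U
  leaf : ∀ s s', u s - u s' ∈ 𝓕.T
  holomorphic : ∀ p : S, ∀ w ∈ (chartAt ℂ p).target, DifferentiableAt ℝ (inChart u p) w ∧
    ∀ v : ℂ, fderiv ℝ (inChart u p) w (Complex.I * v) = 𝓕.J (fderiv ℝ (inChart u p) w v)
  proper : IsProperMap fun s => (⟨u s, mem s⟩ : U)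
  somewhere_injective : ∃ s, fderiv ℝ (inChart u s) (chartAt ℂ s s) ≠ 0 ∧
    ∀ s', u s' = u s → s' = s

/-- The coefficient of the pull-back under `u` of the two-form `α` in the coordinate `w = x + i y`
given by the chart of `Σ` at `p`: the function `u^*α (∂/∂x, ∂/∂y)`. -/
noncomputable def pullbackCoeff {S : Type} [TopologicalSpace S] [ChartedSpace ℂ S]
    (u : S → M) (α : M → M [⋀^Fin 2]→L[ℝ] ℝ) (p : S) (w : ℂ) : ℝ :=
  α (inChart u p w) ![fderiv ℝ (inChart u p) w 1, fderiv ℝ (inChart u p) w Complex.I]

/-- `I` is the integral over the Riemann surface `Σ` of the pull-back under `u` of the two-form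
`α`, computed with a finite partition of unity `ρ` on the set `u⁻¹ (supp α)`, subordinate to
coordinate charts of `Σ`. -/
def IsIntegral {S : Type} [TopologicalSpace S] [ChartedSpace ℂ S]
    (u : S → M) (α : M → M [⋀^Fin 2]→L[ℝ] ℝ) (I : ℝ) : Prop :=
  ∃ (N : ℕ) (p : Fin N → S) (ρ : Fin N → S → ℝ),
    (∀ k, Continuous (ρ k) ∧ (∀ s, 0 ≤ ρ k s) ∧ HasCompactSupport (ρ k) ∧
      tsupport (ρ k) ⊆ (chartAt ℂ (p k)).source) ∧
    (∀ s, u s ∈ tsupport α → ∑ k, ρ k s = 1) ∧
    I = ∑ k, ∫ w in (chartAt ℂ (p k)).target,
      ρ k ((chartAt ℂ (p k)).symm w) * pullbackCoeff u α (p k) w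

/-- The set `𝒫_U` of the currents `α ↦ ∫_Σ u^*α` of pseudoholomorphic curves in `U`. -/
def curveCurrents (𝓕 : FlatLeaves M) (U : Opens M) : Set (Current U 2) :=
  {c | ∃ (S : Type) (_ : TopologicalSpace S) (_ : T2Space S) (_ : ConnectedSpace S)
    (_ : ChartedSpace ℂ S) (_ : IsManifold 𝓘(ℂ) 1 S) (u : S → M),
      IsCurve 𝓕 U u ∧ ∀ α : TestForm U 2, IsIntegral u α (c α)}

/-- On `U` the current `c` is a non-negative superposition of pseudoholomorphic curves: for some
σ-algebra on `𝒫_U` and some (non-negative) measure `ν` one has `c(α) = ∫ c'(α) dν(c')` for every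
compactly supported smooth two-form `α` on `U`. -/
def IsSuperposition (𝓕 : FlatLeaves M) (U : Opens M) (c : Current (⊤ : Opens M) 2) : Prop :=
  ∃ (_ : MeasurableSpace (curveCurrents 𝓕 U)) (ν : Measure (curveCurrents 𝓕 U)),
    ∀ α : TestForm U 2, Integrable (fun c' : curveCurrents 𝓕 U => (c' : Current U 2) α) ν ∧
      c (extendZero α) = ∫ c' : curveCurrents 𝓕 U, (c' : Current U 2) α ∂ν

end General

end Pool.Agent.Y525.Leaf
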