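import Mathlib

set_option autoImplicit false

open MeasureTheory Set Topology TopologicalSpace Filter
open scoped ContDiff NNReal

/-! Integrals over the half space `(-∞, 0] × ℝ²`. -/

namespace Pool.Agent.Y525.Leaf

/-- the half space -/
def half : Set (ℝ × ℝ × ℝ) := Iic (0 : ℝ) ×ˢ univ

theorem measurableSet_half : MeasurableSet half := measurableSet_Iic.prod MeasurableSet.univ

theorem hasCompactSupport_slice {G : ℝ × ℝ × ℝ → ℝ} (hc : HasCompactSupport G) (s : ℝ) :
    HasCompactSupport (fun t : ℝ × ℝ => G (s, t)) := by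
  have : IsClosedEmbedding (fun t : ℝ × ℝ => (s, t)) := 
    (Isometry.of_dist_eq fun a b => by simp [Prod.dist_eq]).isClosedEmbedding
  exact hc.comp_isClosedEmbedding this

theorem hasCompactSupport_slice' {G : ℝ × ℝ × ℝ → ℝ} (hc : HasCompactSupport G) (t : ℝ × ℝ) :
    HasCompactSupport (fun s : ℝ => G (s, t)) := by
  have : IsClosedEmbedding (fun s : ℝ => (s, t)) := 
    (Isometry.of_dist_eq fun a b => by simp [Prod.dist_eq]).isClosedEmbedding
  exact hc.comp_isClosedEmbedding this

theorem volume_restrict_half : (volume : Measure (ℝ × ℝ × ℝ)).restrict half =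
    ((volume : Measure ℝ).restrict (Iic 0)).prod (volume : Measure (ℝ × ℝ)) := by
  unfold half
  rw [Measure.volume_eq_prod, ← Measure.prod_restrict, Measure.restrict_univ]

theorem integrable_fderiv {G : ℝ × ℝ × ℝ → ℝ} (hG : ContDiff ℝ 1 G) (hc : HasCompactSupport G)
    (v : ℝ × ℝ × ℝ) (μ : Measure (ℝ × ℝ × ℝ)) [IsFiniteMeasureOnCompacts μ] :
    Integrable (fun x => fderiv ℝ G x v) μ := by
  have h1 : Continuous (fun x => fderiv ℝ G x v) :=
    (hG.continuous_fderiv (by simp)).clm_apply continuous_const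
  exact h1.integrable_of_hasCompactSupport (hc.fderiv_apply ℝ v)

theorem integral_half_fderiv_fst {G : ℝ × ℝ × ℝ → ℝ} (hG : ContDiff ℝ 1 G)
    (hc : HasCompactSupport G) :
    ∫ x in half, fderiv ℝ G x (1, 0) = ∫ t : ℝ × ℝ, G (0, t) := by
  have hint : Integrable (fun x => fderiv ℝ G x (1, 0))
      (((volume : Measure ℝ).restrict (Iic 0)).prod (volume : Measure (ℝ × ℝ))) := by
    rw [← volume_restrict_half]
    exact (integrable_fderiv hG hc _ volume).integrableOn
  rw [volume_restrict_half, integral_prod_symm _ hint]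
  congr 1
  funext t
  have h1 : ∀ s : ℝ, deriv (fun s => G (s, t)) s = fderiv ℝ G (s, t) (1, 0) := by
    intro s
    have h2 : HasDerivAt (fun s : ℝ => (s, t)) (1, 0) s :=
      (hasDerivAt_id s).prodMk (hasDerivAt_const s t)
    exact ((hG.differentiable (by simp) (s, t)).hasFDerivAt.comp_hasDerivAt s h2).deriv
  simp only [← h1]
  exact HasCompactSupport.integral_Iic_deriv_eq
    (hG.comp (contDiff_id.prodMk contDiff_const)) (hasCompactSupport_slice' hc t) 0

theorem integral_fderiv_eq_zero {g : ℝ × ℝ → ℝ} (hg : ContDiff ℝ 1 g)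
    (hc : HasCompactSupport g) (κ : ℝ × ℝ) : ∫ t, fderiv ℝ g t κ = 0 := by
  have h1 : Continuous (fun x => fderiv ℝ g x κ) :=
    (hg.continuous_fderiv (by simp)).clm_apply continuous_const
  have h2 : Integrable (fun x => fderiv ℝ g x κ) :=
    h1.integrable_of_hasCompactSupport (hc.fderiv_apply ℝ κ)
  have h3 : Integrable g := hg.continuous.integrable_of_hasCompactSupport hc
  have := integral_mul_fderiv_eq_neg_fderiv_mul_of_integrable (μ := (volume : Measure (ℝ × ℝ)))
    (f := fun _ => (1 : ℝ)) (g := g) (v := κ) (by simp) (by simpa using h2) (by simpa using h3)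
    (fun x _ => differentiableAt_const _) (fun x _ => hg.differentiable (by simp) x)
  simpa using this

theorem integral_half_fderiv_snd {G : ℝ × ℝ × ℝ → ℝ} (hG : ContDiff ℝ 1 G)
    (hc : HasCompactSupport G) (κ : ℝ × ℝ) : ∫ x in half, fderiv ℝ G x (0, κ) = 0 := by
  have hint : Integrable (fun x => fderiv ℝ G x (0, κ))
      (((volume : Measure ℝ).restrict (Iic 0)).prod (volume : Measure (ℝ × ℝ))) := by
    rw [← volume_restrict_half]
    exact (integrable_fderiv hG hc _ volume).integrableOn
  rw [volume_restrict_half, integral_prod _ hint]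
  have : ∀ s : ℝ, ∫ t : ℝ × ℝ, fderiv ℝ G (s, t) (0, κ) = 0 := by
    intro s
    have h1 : ∀ t : ℝ × ℝ, fderiv ℝ (fun t => G (s, t)) t κ = fderiv ℝ G (s, t) (0, κ) := by
      intro t
      have h2 : HasFDerivAt (fun t : ℝ × ℝ => (s, t))
          ((0 : (ℝ × ℝ) →L[ℝ] ℝ).prod (ContinuousLinearMap.id ℝ (ℝ × ℝ))) t :=
        (hasFDerivAt_const s t).prodMk (hasFDerivAt_id t)
      have h3 := ((hG.differentiable (by simp) (s, t)).hasFDerivAt.comp t h2).fderiv
      have h4 : fderiv ℝ (fun t => G (s, t)) t = (fderiv ℝ G (s, t)).comp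
          ((0 : (ℝ × ℝ) →L[ℝ] ℝ).prod (ContinuousLinearMap.id ℝ (ℝ × ℝ))) := h3
      rw [h4]
      rfl
    simp only [← h1]
    exact integral_fderiv_eq_zero (hG.comp (contDiff_const.prodMk contDiff_id))
      (hasCompactSupport_slice hc s) κ
  simp [this]

end Pool.Agent.Y525.Leaf
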