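import Mathlib

set_option autoImplicit false

open MeasureTheory Set Topology TopologicalSpace Filter
open scoped ContDiff NNReal Manifold

/-! Holomorphic functions on a connected Riemann surface: identity theorem, open mapping. -/

namespace Pool.Agent.Y525.Leaf

variable {S : Type} [TopologicalSpace S] [ChartedSpace ℂ S]
  {F : Type*} [NormedAddCommGroup F] [NormedSpace ℂ F]

/-- holomorphic functions on a Riemann surface -/
def Holo (f : S → F) : Prop := ∀ p : S,
  DifferentiableOn ℂ (fun w => f ((chartAt ℂ p).symm w)) (chartAt ℂ p).target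

theorem analyticAt_chart [CompleteSpace F] {f : S → F} (hf : Holo f)
    (p : S) {w : ℂ} (hw : w ∈ (chartAt ℂ p).target) :
    AnalyticAt ℂ (fun w => f ((chartAt ℂ p).symm w)) w :=
  (hf p).analyticAt ((chartAt ℂ p).open_target.mem_nhds hw)

/-- The identity theorem for holomorphic functions on a connected Riemann surface. -/
theorem eq_const_of_eventually [PreconnectedSpace S] [CompleteSpace F] {f : S → F}
    (hf : Holo f) {s₀ : S} {c : F} (h : ∀ᶠ s in 𝓝 s₀, f s = c) :
    ∀ s, f s = c := by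
  have hZo : IsOpen {s | ∀ᶠ s' in 𝓝 s, f s' = c} := isOpen_setOfPred_eventually_nhds
  have hZc : IsClosed {s | ∀ᶠ s' in 𝓝 s, f s' = c} := by
    rw [← closure_subset_iff_isClosed]
    intro s hs
    obtain ⟨r, hr, hB⟩ := Metric.isOpen_iff.1 (chartAt ℂ s).open_target _ (mem_chart_target ℂ s)
    have hW : (chartAt ℂ s).source ∩ (chartAt ℂ s) ⁻¹' Metric.ball ((chartAt ℂ s) s) r ∈ 𝓝 s :=
      (chartAt ℂ s).continuousOn.isOpen_inter_preimage (chartAt ℂ s).open_source
        Metric.isOpen_ball |>.mem_nhds ⟨mem_chart_source ℂ s, Metric.mem_ball_self hr⟩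
    obtain ⟨s', hs'W, hs'Z⟩ := mem_closure_iff_nhds.1 hs _ hW
    have hg : AnalyticOnNhd ℂ (fun w => f ((chartAt ℂ s).symm w))
        (Metric.ball ((chartAt ℂ s) s) r) := fun w hw => analyticAt_chart hf s (hB hw)
    have h1 : (fun w => f ((chartAt ℂ s).symm w)) =ᶠ[𝓝 ((chartAt ℂ s) s')] fun _ => c := by
      have hc : Tendsto (chartAt ℂ s).symm (𝓝 ((chartAt ℂ s) s')) (𝓝 s') := by
        have := (chartAt ℂ s).symm.continuousAt
          (x := (chartAt ℂ s) s') ((chartAt ℂ s).map_source hs'W.1)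
        rw [ContinuousAt, (chartAt ℂ s).left_inv hs'W.1] at this
        exact this
      exact hc.eventually hs'Z
    have h2 := hg.eqOn_of_preconnected_of_eventuallyEq analyticOnNhd_const
      (convex_ball _ _).isPreconnected hs'W.2 h1
    filter_upwards [hW] with x hx
    have h3 := h2 hx.2
    simpa only [(chartAt ℂ s).left_inv hx.1] using h3
  have hU := IsClopen.eq_univ ⟨hZc, hZo⟩ ⟨s₀, h⟩
  intro s
  have h5 : s ∈ {s | ∀ᶠ s' in 𝓝 s, f s' = c} := by rw [hU]; trivial
  have h6 : ∀ᶠ s' in 𝓝 s, f s' = c := h5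
  obtain ⟨t, ht, -, hst⟩ := eventually_nhds_iff.1 h6
  exact ht s hst

/-- A nonconstant holomorphic function on a connected Riemann surface is open. -/
theorem isOpenMap_of_nonconst [PreconnectedSpace S] {f : S → ℂ}
    (hf : Holo f) (hnc : ∀ c, ∃ s, f s ≠ c) : IsOpenMap f := by
  rw [isOpenMap_iff_nhds_le]
  intro s
  have hmap : Filter.map (chartAt ℂ s).symm (𝓝 ((chartAt ℂ s) s)) = 𝓝 s :=
    (chartAt ℂ s).symm_map_nhds_eq (mem_chart_source ℂ s)
  have hval : (chartAt ℂ s).symm ((chartAt ℂ s) s) = s :=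
    (chartAt ℂ s).left_inv (mem_chart_source ℂ s)
  rcases (analyticAt_chart hf s (mem_chart_target ℂ s)).eventually_constant_or_nhds_le_map_nhds
    with h | h
  · exfalso
    rw [hval] at h
    have h1 : ∀ᶠ x in 𝓝 s, f x = f s := by
      rw [← hmap]
      exact Filter.eventually_map.2 h
    obtain ⟨x, hx⟩ := hnc (f s)
    exact hx (eq_const_of_eventually hf h1 x)
  · rw [hval] at h
    have h2 : Filter.map (fun w => f ((chartAt ℂ s).symm w)) (𝓝 ((chartAt ℂ s) s)) =
        Filter.map f (𝓝 s) := by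
      rw [← hmap, Filter.map_map]
      rfl
    rwa [h2] at h

/-- A holomorphic function on a connected Riemann surface whose real part vanishes on a nonempty
open set is an imaginary constant. -/
theorem eq_const_of_re_eq_zero [PreconnectedSpace S] {f : S → ℂ}
    (hf : Holo f) {W : Set S} (hW : IsOpen W) (hne : W.Nonempty)
    (h : ∀ s ∈ W, (f s).re = 0) : ∃ τ : ℝ, ∀ s, f s = τ * Complex.I := by
  obtain ⟨s₀, hs₀⟩ := hne
  by_cases hnc : ∀ c, ∃ s, f s ≠ c
  · exfalso
    have h1 := isOpenMap_of_nonconst hf hnc W hW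
    obtain ⟨ε, hε, hB⟩ := Metric.isOpen_iff.1 h1 (f s₀) ⟨s₀, hs₀, rfl⟩
    have h2 : f s₀ + (ε / 2 : ℝ) ∈ Metric.ball (f s₀) ε := by
      rw [Metric.mem_ball, dist_eq_norm, add_sub_cancel_left, Complex.norm_real, Real.norm_eq_abs,
        abs_of_pos (by positivity)]
      linarith
    obtain ⟨s, hs, hs'⟩ := hB h2
    have h3 := h s hs
    rw [hs', Complex.add_re, h s₀ hs₀, Complex.ofReal_re] at h3
    linarith
  · push Not at hnc
    obtain ⟨c, hc⟩ := hnc
    refine ⟨c.im, fun s => ?_⟩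
    have h1 : c.re = 0 := by rw [← hc s₀]; exact h s₀ hs₀
    rw [hc s]
    apply Complex.ext <;> simp [h1]

omit [ChartedSpace ℂ S] in
/-- A holomorphic map which is proper into `U` and has image in the complex line parametrised by
`γ` covers every connected part of `U ∩ γ(ℂ)` that it meets. -/
theorem subset_range_of_proper {M : Type*} [TopologicalSpace M] {U : Set M}
    {u : S → M} (hu : ∀ s, u s ∈ U) (hproper : IsProperMap (fun s => (⟨u s, hu s⟩ : U)))
    {h : S → ℂ} (hh : IsOpenMap h) {γ : ℂ → M} (hγ : Continuous γ) (hinj : Function.Injective γ)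
    (huγ : ∀ s, u s = γ (h s)) {D : Set ℂ} (hD : IsPreconnected D) (hDU : ∀ w ∈ D, γ w ∈ U)
    {s₀ : S} (hs₀ : h s₀ ∈ D) : D ⊆ range h := by
  have hcl : IsClosed (range fun s => (⟨u s, hu s⟩ : U)) := hproper.isClosedMap.isClosed_range
  obtain ⟨O, hO, hOU⟩ := isOpen_induced_iff.1 hcl.isOpen_compl
  have hO' : ∀ x : U, (x : M) ∈ O ↔ x ∉ range fun s => (⟨u s, hu s⟩ : U) := by
    intro x
    have : x ∈ Subtype.val ⁻¹' O ↔ x ∈ (range fun s => (⟨u s, hu s⟩ : U))ᶜ := by rw [hOU]
    exact this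
  have key := isPreconnected_iff_subset_of_disjoint.1 hD (range h) (γ ⁻¹' O) hh.isOpen_range
    (hO.preimage hγ) (by
      intro w hw
      by_cases hwr : w ∈ range h
      · exact Or.inl hwr
      · refine Or.inr ((hO' ⟨γ w, hDU w hw⟩).2 ?_)
        rintro ⟨s, hs⟩
        apply hwr
        refine ⟨s, hinj ?_⟩
        rw [← huγ]
        exact congrArg Subtype.val hs) (by
      ext w
      simp only [mem_inter_iff, mem_preimage, mem_empty_iff_false, iff_false, not_and]
      rintro hw ⟨s, rfl⟩ hwO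
      exact (hO' ⟨γ (h s), hDU _ hw⟩).1 hwO ⟨s, Subtype.ext (huγ s)⟩)
  rcases key with h1 | h1
  · exact h1
  · exfalso
    exact (hO' ⟨γ (h s₀), hDU _ hs₀⟩).1 (h1 hs₀) ⟨s₀, Subtype.ext (huγ s₀)⟩

end Pool.Agent.Y525.Leaf
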