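import Pool.Agent.Y525.Leaf.Model
import Pool.Agent.Y525.Leaf.Surface

set_option autoImplicit false

open MeasureTheory Set Topology TopologicalSpace Filter
open scoped ContDiff NNReal Distributions Manifold

/-! The leafwise Kähler form, and its integrals over pseudoholomorphic curves. -/

namespace Pool.Agent.Y525.Leaf

variable {n q : ℕ}

/-- The leafwise Kähler form `ω (v, w) = Im ⟪v.1, w.1⟫`. -/
noncomputable def kahler (n q : ℕ) : Space n q [⋀^Fin 2]→L[ℝ] ℝ :=
  AlternatingMap.mkContinuous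
    { toFun := fun v => (inner ℂ (v 0).1 (v 1).1).im
      map_update_add' := by
        intro _ v i x y
        fin_cases i
        · simp
        · simp
      map_update_smul' := by
        intro _ v i c x
        have h0 : ∀ (c : ℝ) (x y : EuclideanSpace ℂ (Fin n)),
            inner ℂ (c • x) y = (c : ℂ) * inner ℂ x y := by
          intro c x y
          rw [← Complex.coe_smul, inner_smul_left]; simp
        have h1 : ∀ (c : ℝ) (x y : EuclideanSpace ℂ (Fin n)),
            inner ℂ x (c • y) = (c : ℂ) * inner ℂ x y := by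
          intro c x y
          rw [← Complex.coe_smul, inner_smul_right]
        fin_cases i
        · simp [h0]
        · simp [h1]
      map_eq_zero_of_eq' := by
        intro v i j hij hne
        have : v 0 = v 1 := by
          fin_cases i <;> fin_cases j <;> simp_all
        simp only [this]
        have := inner_self_im (𝕜 := ℂ) (v 1).1
        simpa using this } 1 (by
    intro v
    simp only [AlternatingMap.coe_mk, MultilinearMap.coe_mk, Fin.prod_univ_two, one_mul]
    refine (Complex.abs_im_le_norm _).trans ((norm_inner_le_norm _ _).trans ?_)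
    gcongr
    · exact norm_fst_le (v 0)
    · exact norm_fst_le (v 1))

theorem kahler_apply (v w : Space n q) : kahler n q ![v, w] = (inner ℂ v.1 w.1).im := rfl

theorem kahler_J (v w : Space n q) (h : w.1 = Complex.I • v.1) :
    kahler n q ![v, w] = ‖v.1‖ ^ 2 := by
  rw [kahler_apply, h, inner_smul_right, inner_self_eq_norm_sq_to_K]
  simp only [Complex.mul_im, Complex.I_re, Complex.I_im, zero_mul, one_mul, zero_add]
  norm_cast

/-- The compactly supported form `φ ω`. -/
noncomputable def phiForm {U : Opens (Space n q)} (φ : 𝓓(U, ℝ)) : TestForm U 2 :=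
  ⟨fun z => φ z • kahler n q, φ.contDiff.smul contDiff_const, φ.hasCompactSupport.smul_right,
    (closure_mono (fun z hz => by
      intro h0
      apply hz
      show φ z • kahler n q = 0
      rw [show φ z = 0 from h0, zero_smul])).trans φ.tsupport_subset⟩

theorem phiForm_apply {U : Opens (Space n q)} (φ : 𝓓(U, ℝ)) (z : Space n q) :
    phiForm φ z = φ z • kahler n q := rfl

section Curve

variable {U : Opens (Space n q)} {S : Type} [TopologicalSpace S] [ChartedSpace ℂ S]
  {u : S → Space n q}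

/-- the leaf component in a chart -/
noncomputable def leafChart (u : S → Space n q) (p : S) (w : ℂ) : EuclideanSpace ℂ (Fin n) :=
  (u ((chartAt ℂ p).symm w)).1

theorem leaves_J (v : Space n q) : (leaves n q).J v = (Complex.I • v.1, 0) := rfl

theorem IsCurve.snd_eq (hu : IsCurve (leaves n q) U u) (s s' : S) : (u s).2 = (u s').2 := by
  have h : (u s - u s').2 = 0 := hu.leaf s s'
  rwa [Prod.snd_sub, sub_eq_zero] at h

/-- the leaf component is holomorphic -/
theorem IsCurve.holo (hu : IsCurve (leaves n q) U u) : Holo (fun s => (u s).1) := by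
  intro p w hw
  refine DifferentiableAt.differentiableWithinAt ?_
  obtain ⟨h1, h2⟩ := hu.holomorphic p w hw
  have h3 : HasFDerivAt (fun w => (u ((chartAt ℂ p).symm w)).1)
      ((ContinuousLinearMap.fst ℝ (EuclideanSpace ℂ (Fin n)) (EuclideanSpace ℝ (Fin q))).comp
        (fderiv ℝ (inChart u p) w)) w := by
    have h4 := ((ContinuousLinearMap.fst ℝ (EuclideanSpace ℂ (Fin n))
      (EuclideanSpace ℝ (Fin q))).hasFDerivAt (x := inChart u p w)).comp w h1.hasFDerivAt
    exact h4
  refine (differentiableAt_iff_restrictScalars ℝ h3.differentiableAt).2 ?_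
  rw [h3.fderiv]
  set D : ℂ →L[ℝ] EuclideanSpace ℂ (Fin n) :=
    (ContinuousLinearMap.fst ℝ (EuclideanSpace ℂ (Fin n)) (EuclideanSpace ℝ (Fin q))).comp
        (fderiv ℝ (inChart u p) w) with hD
  have hDI : ∀ v, D (Complex.I * v) = Complex.I • D v := by
    intro v
    show (fderiv ℝ (inChart u p) w (Complex.I * v)).1 = Complex.I • (fderiv ℝ (inChart u p) w v).1
    rw [h2 v]
    rfl
  refine ⟨ContinuousLinearMap.toSpanSingleton ℂ (D 1), ?_⟩
  refine ContinuousLinearMap.ext fun v => ?_
  have hI := hDI 1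
  rw [mul_one] at hI
  have hv : v = v.re • (1 : ℂ) + v.im • Complex.I := by
    apply Complex.ext <;> simp
  show v • D 1 = D v
  conv_rhs => rw [hv, map_add, map_smul, map_smul, hI]
  conv_lhs => rw [hv]
  rw [add_smul, smul_assoc, one_smul, smul_assoc]

theorem IsCurve.differentiableOn (hu : IsCurve (leaves n q) U u) (p : S) :
    DifferentiableOn ℂ (leafChart u p) (chartAt ℂ p).target :=
  hu.holo p

theorem IsCurve.fderiv_eq (hu : IsCurve (leaves n q) U u) (p : S) {w : ℂ}
    (hw : w ∈ (chartAt ℂ p).target) (v : ℂ) :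
    fderiv ℝ (inChart u p) w v = (v • deriv (leafChart u p) w, 0) := by
  have h1 : HasDerivAt (leafChart u p) (deriv (leafChart u p) w) w :=
    ((hu.differentiableOn p).differentiableAt
      ((chartAt ℂ p).open_target.mem_nhds hw)).hasDerivAt
  have h2 := h1.hasFDerivAt.restrictScalars ℝ
  have h3 : HasFDerivAt (inChart u p)
      (((ContinuousLinearMap.toSpanSingleton ℂ (deriv (leafChart u p) w)).restrictScalars ℝ).prod
        (0 : ℂ →L[ℝ] EuclideanSpace ℝ (Fin q))) w := by
    have h4 := h2.prodMk (hasFDerivAt_const (𝕜 := ℝ) (u p).2 w)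
    refine h4.congr_of_eventuallyEq (Eventually.of_forall fun w' => ?_)
    exact Prod.ext rfl (hu.snd_eq _ _)
  rw [h3.fderiv]
  rfl

theorem IsCurve.pullback_eq (hu : IsCurve (leaves n q) U u) (φ : 𝓓(U, ℝ)) (p : S) {w : ℂ}
    (hw : w ∈ (chartAt ℂ p).target) : pullbackCoeff u (phiForm φ) p w =
      φ (u ((chartAt ℂ p).symm w)) * ‖deriv (leafChart u p) w‖ ^ 2 := by
  unfold pullbackCoeff
  rw [phiForm_apply, hu.fderiv_eq p hw, hu.fderiv_eq p hw, ContinuousAlternatingMap.smul_apply,
    kahler_J]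
  · rw [one_smul, smul_eq_mul]
    rfl
  · simp

theorem IsCurve.continuous (hu : IsCurve (leaves n q) U u) : Continuous u := by
  have h := hu.proper.continuous
  exact continuous_subtype_val.comp h

/-- The coefficient functions of the integral are continuous on the target of the chart. -/
theorem IsCurve.continuousOn (hu : IsCurve (leaves n q) U u) (φ : 𝓓(U, ℝ)) (p : S) {ρ : S → ℝ}
    (hρ : Continuous ρ) : ContinuousOn (fun w => ρ ((chartAt ℂ p).symm w) *
      (φ (u ((chartAt ℂ p).symm w)) * ‖deriv (leafChart u p) w‖ ^ 2)) (chartAt ℂ p).target := by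
  have h1 : ContinuousOn (chartAt ℂ p).symm (chartAt ℂ p).target :=
    (chartAt ℂ p).continuousOn_symm
  have h2 : ContinuousOn (deriv (leafChart u p)) (chartAt ℂ p).target :=
    ((hu.differentiableOn p).analyticOnNhd (chartAt ℂ p).open_target).deriv.continuousOn
  refine (hρ.comp_continuousOn h1).mul (ContinuousOn.mul ?_ (h2.norm.pow 2))
  exact (φ.continuous.comp hu.continuous).comp_continuousOn h1

theorem IsCurve.integrableOn (hu : IsCurve (leaves n q) U u) (φ : 𝓓(U, ℝ)) (p : S) {ρ : S → ℝ}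
    (hρ : Continuous ρ) (hc : HasCompactSupport ρ) (hs : tsupport ρ ⊆ (chartAt ℂ p).source) :
    IntegrableOn (fun w => ρ ((chartAt ℂ p).symm w) *
      (φ (u ((chartAt ℂ p).symm w)) * ‖deriv (leafChart u p) w‖ ^ 2)) (chartAt ℂ p).target := by
  have hK : IsCompact ((chartAt ℂ p) '' tsupport ρ) :=
    hc.isCompact.image_of_continuousOn ((chartAt ℂ p).continuousOn.mono hs)
  have hKt : (chartAt ℂ p) '' tsupport ρ ⊆ (chartAt ℂ p).target := by
    rintro _ ⟨s, hs', rfl⟩
    exact (chartAt ℂ p).map_source (hs hs')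
  have h1 := ((hu.continuousOn φ p hρ).mono hKt).integrableOn_compact (μ := volume) hK
  refine h1.of_forall_sdiff_eq_zero (chartAt ℂ p).open_target.measurableSet ?_
  rintro w ⟨hw, hwK⟩
  have : ρ ((chartAt ℂ p).symm w) = 0 := by
    by_contra hne
    apply hwK
    exact ⟨(chartAt ℂ p).symm w, subset_tsupport _ hne, (chartAt ℂ p).right_inv hw⟩
  rw [this, zero_mul]

theorem IsCurve.setIntegral_eq (hu : IsCurve (leaves n q) U u) (φ : 𝓓(U, ℝ)) (p : S) (ρ : S → ℝ) :
    ∫ w in (chartAt ℂ p).target, ρ ((chartAt ℂ p).symm w) * pullbackCoeff u (phiForm φ) p w =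
    ∫ w in (chartAt ℂ p).target, ρ ((chartAt ℂ p).symm w) *
      (φ (u ((chartAt ℂ p).symm w)) * ‖deriv (leafChart u p) w‖ ^ 2) := by
  refine setIntegral_congr_fun (chartAt ℂ p).open_target.measurableSet fun w hw => ?_
  simp only [hu.pullback_eq φ p hw]

theorem IsCurve.integral_nonneg (hu : IsCurve (leaves n q) U u) {φ : 𝓓(U, ℝ)} (hφ : ∀ z, 0 ≤ φ z) {I : ℝ}
    (hI : IsIntegral u (phiForm φ) I) : 0 ≤ I := by
  obtain ⟨N, p, ρ, h1, h2, rfl⟩ := hI
  refine Finset.sum_nonneg fun k _ => ?_
  rw [hu.setIntegral_eq]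
  refine setIntegral_nonneg (chartAt ℂ (p k)).open_target.measurableSet fun w _ => ?_
  exact mul_nonneg ((h1 k).2.1 _) (mul_nonneg (hφ _) (by positivity))

/-- If the integral of the nonnegative form `φ ω` over the curve vanishes, then the curve is
locally constant where `φ > 0`. -/
theorem IsCurve.eventually_const (hu : IsCurve (leaves n q) U u) {φ : 𝓓(U, ℝ)} (hφ : ∀ z, 0 ≤ φ z)
    (hI : IsIntegral u (phiForm φ) 0) {s₀ : S} (hs₀ : 0 < φ (u s₀)) (hn : kahler n q ≠ 0) :
    ∀ᶠ s in 𝓝 s₀, (u s).1 = (u s₀).1 := by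
  obtain ⟨N, p, ρ, h1, h2, h3⟩ := hI
  have hsum : ∑ k, ρ k s₀ = 1 := by
    apply h2
    apply subset_tsupport
    show φ (u s₀) • kahler n q ≠ 0
    exact smul_ne_zero hs₀.ne' hn
  obtain ⟨k, hk⟩ : ∃ k, 0 < ρ k s₀ := by
    by_contra hc
    push Not at hc
    have : ∑ k, ρ k s₀ ≤ 0 := Finset.sum_nonpos fun k _ => hc k
    linarith
  have hk1 : s₀ ∈ (chartAt ℂ (p k)).source := (h1 k).2.2.2 (subset_tsupport _ hk.ne')
  have hnn : ∀ k, 0 ≤ ∫ w in (chartAt ℂ (p k)).target,
      ρ k ((chartAt ℂ (p k)).symm w) * pullbackCoeff u (phiForm φ) (p k) w := by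
    intro k
    rw [hu.setIntegral_eq]
    refine setIntegral_nonneg (chartAt ℂ (p k)).open_target.measurableSet fun w _ => ?_
    exact mul_nonneg ((h1 k).2.1 _) (mul_nonneg (hφ _) (by positivity))
  have hz := (Finset.sum_eq_zero_iff_of_nonneg (fun k _ => hnn k)).1 h3.symm k (Finset.mem_univ k)
  rw [hu.setIntegral_eq] at hz
  have hint := hu.integrableOn φ (p k) (h1 k).1 (h1 k).2.2.1 (h1 k).2.2.2
  have hcont := hu.continuousOn φ (p k) (h1 k).1
  have hae := (setIntegral_eq_zero_iff_of_nonneg_ae (Eventually.of_forall fun w =>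
    mul_nonneg ((h1 k).2.1 _) (mul_nonneg (hφ _) (by positivity))) hint).1 hz
  have hEq := Measure.eqOn_open_of_ae_eq hae (chartAt ℂ (p k)).open_target hcont
    continuousOn_const
  -- near `s₀` the derivative vanishes
  have hw₀ : (chartAt ℂ (p k)) s₀ ∈ (chartAt ℂ (p k)).target :=
    (chartAt ℂ (p k)).map_source hk1
  have hO : IsOpen ((chartAt ℂ (p k)).target ∩ (chartAt ℂ (p k)).symm ⁻¹'
      {s | 0 < ρ k s ∧ 0 < φ (u s)}) :=
    (chartAt ℂ (p k)).continuousOn_symm.isOpen_inter_preimage (chartAt ℂ (p k)).open_target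
      ((isOpen_lt continuous_const (h1 k).1).inter
        (isOpen_lt continuous_const (φ.continuous.comp hu.continuous)))
  obtain ⟨r, hr, hB⟩ := Metric.isOpen_iff.1 hO ((chartAt ℂ (p k)) s₀) ⟨hw₀, by
    show 0 < ρ k _ ∧ 0 < φ (u _)
    rw [(chartAt ℂ (p k)).left_inv hk1]
    exact ⟨hk, hs₀⟩⟩
  have hder : (Metric.ball ((chartAt ℂ (p k)) s₀) r).EqOn (deriv (leafChart u (p k))) 0 := by
    intro w hw
    obtain ⟨hw1, hw2, hw3⟩ := hB hw
    have h4 := hEq hw1
    simp only [Pi.zero_apply] at h4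
    have h5 : ‖deriv (leafChart u (p k)) w‖ ^ 2 = 0 := by
      rcases mul_eq_zero.1 h4 with h | h
      · exact absurd h hw2.ne'
      · rcases mul_eq_zero.1 h with h | h
        · exact absurd h hw3.ne'
        · exact h
    simpa using h5
  have hconst : ∀ w ∈ Metric.ball ((chartAt ℂ (p k)) s₀) r,
      leafChart u (p k) w = leafChart u (p k) ((chartAt ℂ (p k)) s₀) := fun w hw =>
    Metric.isOpen_ball.is_const_of_deriv_eq_zero (convex_ball _ _).isPreconnected
      ((hu.differentiableOn (p k)).mono fun w hw => (hB hw).1) hder hw (Metric.mem_ball_self hr)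
  have hW : (chartAt ℂ (p k)).source ∩
      (chartAt ℂ (p k)) ⁻¹' Metric.ball ((chartAt ℂ (p k)) s₀) r ∈ 𝓝 s₀ :=
    ((chartAt ℂ (p k)).continuousOn.isOpen_inter_preimage (chartAt ℂ (p k)).open_source
      Metric.isOpen_ball).mem_nhds ⟨hk1, Metric.mem_ball_self hr⟩
  filter_upwards [hW] with s hs
  have h6 := hconst _ hs.2
  unfold leafChart at h6
  rwa [(chartAt ℂ (p k)).left_inv hs.1, (chartAt ℂ (p k)).left_inv hk1] at h6

end Curve

end Pool.Agent.Y525.Leaf
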