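import Pool.Agent.Y525.Leaf.Defs
import Pool.Agent.Y525.Leaf.Half
import Pool.Agent.Y525.Leaf.Positive

set_option autoImplicit false

open MeasureTheory Set Topology TopologicalSpace Filter
open scoped ContDiff NNReal Distributions Manifold

/-! The current of integration over a half hyperplane foliated by complex half lines. -/

namespace Pool.Agent.Y525.Leaf

variable {n q : ℕ}

/-- the leafwise complex structure -/
noncomputable abbrev J (v : Space n q) : Space n q := (leaves n q).J v

/-- the vector is tangent to the leaves -/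
abbrev IsLeafwise (v : Space n q) : Prop := v ∈ (leaves n q).T

/-- parametrisation of the hyperplane -/
noncomputable def par (v a b : Space n q) : ℝ × ℝ × ℝ →L[ℝ] Space n q :=
  (ContinuousLinearMap.fst ℝ ℝ (ℝ × ℝ)).smulRight v +
   (((ContinuousLinearMap.fst ℝ ℝ ℝ).comp (ContinuousLinearMap.snd ℝ ℝ (ℝ × ℝ))).smulRight a +
    ((ContinuousLinearMap.snd ℝ ℝ ℝ).comp (ContinuousLinearMap.snd ℝ ℝ (ℝ × ℝ))).smulRight b)

theorem par_apply (v a b : Space n q) (x : ℝ × ℝ × ℝ) :
    par v a b x = x.1 • v + (x.2.1 • a + x.2.2 • b) := rfl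

/-- push-forward of Lebesgue measure on the half space -/
noncomputable def parMeasure (v a b : Space n q) : Measure (Space n q) :=
  Measure.map (par v a b) ((volume : Measure (ℝ × ℝ × ℝ)).restrict half)

theorem isClosedEmbedding_par {v a b : Space n q} (h : Function.Injective (par v a b)) :
    IsClosedEmbedding (par v a b) :=
  LinearMap.isClosedEmbedding_of_injective (f := (par v a b).toLinearMap)
    (LinearMap.ker_eq_bot.2 h)

theorem locallyIntegrableOn_parMeasure {v a b : Space n q} (h : Function.Injective (par v a b)) :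
    LocallyIntegrableOn (fun _ : Space n q => (1 : ℝ))
      ((⊤ : Opens (Space n q)) : Set (Space n q)) (parMeasure v a b) := by
  have hf : IsFiniteMeasureOnCompacts (parMeasure v a b) := by
    refine ⟨fun K hK => ?_⟩
    unfold parMeasure
    rw [Measure.map_apply (par v a b).continuous.measurable hK.measurableSet]
    exact ((isClosedEmbedding_par h).isCompact_preimage hK).measure_lt_top
  have : IsLocallyFiniteMeasure (parMeasure v a b) :=
    isLocallyFiniteMeasure_of_isFiniteMeasureOnCompacts
  exact (locallyIntegrable_const (1 : ℝ)).locallyIntegrableOn _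

/-- evaluation on `v ∧ J v` times a real number -/
noncomputable def evalBilin (v : Space n q) :
    (Space n q [⋀^Fin 2]→L[ℝ] ℝ) →L[ℝ] ℝ →L[ℝ] ℝ :=
  (ContinuousLinearMap.mul ℝ ℝ).comp (ContinuousAlternatingMap.apply ℝ (Space n q) ℝ ![v, J v])

/-- `α ↦ ∫_{s ≤ 0} α (v, J v)` over the half hyperplane `s v + t₁ a + t₂ b`. -/
noncomputable def halfCurrent (v a b : Space n q) : Current (⊤ : Opens (Space n q)) 2 :=
  TestFunction.integralAgainstBilinCLM (evalBilin v) (parMeasure v a b) (fun _ => 1)

theorem continuous_eval {U : Opens (Space n q)} {p : ℕ} (α : TestForm U p)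
    (w : Fin p → Space n q) : Continuous fun z => α z w :=
  (ContinuousAlternatingMap.apply ℝ (Space n q) ℝ w).continuous.comp α.continuous

theorem halfCurrent_eq_integral {v a b : Space n q} (h : Function.Injective (par v a b))
    (α : TestForm (⊤ : Opens (Space n q)) 2) :
    halfCurrent v a b α = ∫ z, α z ![v, J v] ∂(parMeasure v a b) := by
  unfold halfCurrent
  rw [TestFunction.integralAgainstBilinCLM_eq_integral (locallyIntegrableOn_parMeasure h)]
  refine integral_congr_ae (Eventually.of_forall fun z => ?_)
  simp [evalBilin]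

theorem halfCurrent_apply {v a b : Space n q} (h : Function.Injective (par v a b))
    (α : TestForm (⊤ : Opens (Space n q)) 2) :
    halfCurrent v a b α = ∫ x in half, α (par v a b x) ![v, J v] := by
  rw [halfCurrent_eq_integral h, parMeasure, integral_map]
  · exact (par v a b).continuous.measurable.aemeasurable
  · exact (continuous_eval α _).aestronglyMeasurable

/-- evaluation of a one-form -/
theorem contDiff_eval_one {U : Opens (Space n q)} (β : TestForm U 1) (w v a b : Space n q) :
    ContDiff ℝ 1 fun x => β (par v a b x) ![w] := by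
  have h1 : ContDiff ℝ 1 fun z => β z ![w] :=
    (ContinuousAlternatingMap.apply ℝ (Space n q) ℝ ![w]).contDiff.comp
      (β.contDiff.of_le (by simp))
  exact h1.comp (par v a b).contDiff

theorem hasCompactSupport_eval {U : Opens (Space n q)} {p : ℕ} (β : TestForm U p)
    (w : Fin p → Space n q) {v a b : Space n q} (h : Function.Injective (par v a b)) :
    HasCompactSupport fun x => β (par v a b x) w := by
  have h1 : HasCompactSupport fun z => β z w :=
    β.hasCompactSupport.comp_left (g := fun A : Space n q [⋀^Fin p]→L[ℝ] ℝ => A w) rfl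
  exact h1.comp_isClosedEmbedding (isClosedEmbedding_par h)

theorem d_apply {U : Opens (Space n q)} (β : TestForm U 1) (z v w : Space n q) :
    d β z ![v, w] = fderiv ℝ (fun z => β z ![w]) z v - fderiv ℝ (fun z => β z ![v]) z w := by
  have h0 : d β z = extDeriv β z := rfl
  rw [h0, extDeriv_apply ((β.contDiff.differentiable (by simp)) z), Fin.sum_univ_two]
  have e0 : (0 : Fin 2).removeNth ![v, w] = ![w] := by
    funext i; fin_cases i; rfl
  have e1 : (1 : Fin 2).removeNth ![v, w] = ![v] := by
    funext i; fin_cases i; rfl
  rw [e0, e1]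
  simp [sub_eq_add_neg]

theorem differentiable_eval {U : Opens (Space n q)} (β : TestForm U 1) (w : Space n q) :
    Differentiable ℝ fun z => β z ![w] := by
  have h1 : ContDiff ℝ 1 fun z => β z ![w] :=
    (ContinuousAlternatingMap.apply ℝ (Space n q) ℝ ![w]).contDiff.comp
      (β.contDiff.of_le (by simp))
  exact h1.differentiable (by simp)

/-- The boundary of the half-hyperplane current. -/
theorem halfCurrent_d {v a b : Space n q} (h : Function.Injective (par v a b)) {κ : ℝ × ℝ}
    (hJ : J v = κ.1 • a + κ.2 • b) (β : TestForm (⊤ : Opens (Space n q)) 1) :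
    halfCurrent v a b (d β) = ∫ t : ℝ × ℝ, β (t.1 • a + t.2 • b) ![J v] := by
  rw [halfCurrent_apply h]
  have h1 : ∀ w x y, fderiv ℝ (fun x => β (par v a b x) ![w]) x y =
      fderiv ℝ (fun z => β z ![w]) (par v a b x) (par v a b y) := by
    intro w x y
    have := ((differentiable_eval β w (par v a b x)).hasFDerivAt.comp x
      (par v a b).hasFDerivAt).fderiv
    have h2 : fderiv ℝ (fun x => β (par v a b x) ![w]) x =
      (fderiv ℝ (fun z => β z ![w]) (par v a b x)).comp (par v a b) := this
    rw [h2]
    rfl
  have h2 : par v a b (1, 0) = v := by simp [par_apply]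
  have h3 : par v a b (0, κ) = J v := by simp [par_apply, hJ]
  have h4 : ∀ x, d β (par v a b x) ![v, J v] =
      fderiv ℝ (fun x => β (par v a b x) ![J v]) x (1, 0) -
        fderiv ℝ (fun x => β (par v a b x) ![v]) x (0, κ) := by
    intro x
    rw [d_apply, h1, h1, h2, h3]
  simp only [h4]
  rw [integral_sub, integral_half_fderiv_fst (contDiff_eval_one β _ _ _ _)
    (hasCompactSupport_eval β _ h), integral_half_fderiv_snd (contDiff_eval_one β _ _ _ _)
    (hasCompactSupport_eval β _ h), sub_zero]
  · simp [par_apply]
  · exact (integrable_fderiv (contDiff_eval_one β _ _ _ _)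
      (hasCompactSupport_eval β _ h) _ volume).integrableOn
  · exact (integrable_fderiv (contDiff_eval_one β _ _ _ _)
      (hasCompactSupport_eval β _ h) _ volume).integrableOn

theorem isCCurrent_add {U : Opens (Space n q)} {c c' : Current U 2} (h : IsCCurrent (leaves n q) c)
    (h' : IsCCurrent (leaves n q) c') : IsCCurrent (leaves n q) (c + c') := by
  intro N α ε hε
  obtain ⟨m, A, z, v, h1, h2⟩ := h N α (ε / 2) (by positivity)
  obtain ⟨m', A', z', v', h1', h2'⟩ := h' N α (ε / 2) (by positivity)
  refine ⟨m + m', Fin.append A A', Fin.append z z', Fin.append v v', ?_, fun i => ?_⟩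
  · intro j
    refine Fin.addCases (fun j => ?_) (fun j => ?_) j
    · simpa using h1 j
    · simpa using h1' j
  · rw [Fin.sum_univ_add]
    simp only [Fin.append_left, Fin.append_right]
    have e1 := h2 i
    have e2 := h2' i
    rw [abs_lt] at *
    simp only [add_apply]
    constructor <;> linarith [e1.1, e1.2, e2.1, e2.2]

/-- The currents of integration over half hyperplanes lie in the closed cone. -/
theorem isCCurrent_halfCurrent {v a b : Space n q} (h : Function.Injective (par v a b))
    (hv : IsLeafwise v) : IsCCurrent (leaves n q) (halfCurrent v a b) := by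
  intro N α ε hε
  set μ := parMeasure v a b with hμ
  have hf : IsFiniteMeasureOnCompacts μ := by
    refine ⟨fun K hK => ?_⟩
    rw [hμ, parMeasure]
    rw [Measure.map_apply (par v a b).continuous.measurable hK.measurableSet]
    exact ((isClosedEmbedding_par h).isCompact_preimage hK).measure_lt_top
  set f : Space n q → Fin N → ℝ := fun z i => α i z ![v, J v] with hfdef
  have hfc : Continuous f := continuous_pi fun i => continuous_eval (α i) _
  set K : Set (Space n q) := ⋃ i, tsupport (α i) with hK
  have hKc : IsCompact K := isCompact_iUnion fun i => (α i).hasCompactSupport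
  have hval : ∀ i, halfCurrent v a b (α i) = ∫ z in K, f z i ∂μ := by
    intro i
    rw [halfCurrent_eq_integral h]
    refine (setIntegral_eq_integral_of_forall_compl_eq_zero fun z hz => ?_).symm
    have : α i z = 0 := by
      by_contra hne
      exact hz (mem_iUnion.2 ⟨i, subset_tsupport _ hne⟩)
    show α i z ![v, J v] = 0
    rw [this]; rfl
  have hint : IntegrableOn f K μ := hfc.continuousOn.integrableOn_compact hKc
  by_cases h0 : μ K = 0
  · refine ⟨0, fun _ => 0, fun _ => 0, fun _ => 0, fun j => j.elim0, fun i => ?_⟩
    rw [hval i, Measure.restrict_eq_zero.2 h0]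
    simpa using hε
  · have hmem : (⨍ z in K, f z ∂μ) ∈ closure (convexHull ℝ (range f)) := by
      refine (convex_convexHull ℝ _).closure.set_average_mem isClosed_closure h0
        hKc.measure_lt_top.ne (Eventually.of_forall fun z => ?_) hint
      exact subset_closure (subset_convexHull ℝ _ ⟨z, rfl⟩)
    have hpos : 0 < μ.real K := by
      rw [Measure.real, ENNReal.toReal_pos_iff]
      exact ⟨pos_iff_ne_zero.2 h0, hKc.measure_lt_top⟩
    obtain ⟨y, hy, hyd⟩ := Metric.mem_closure_iff.1 hmem (ε / μ.real K) (by positivity)
    rw [convexHull_eq] at hy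
    obtain ⟨ι, t, w, g, hw0, hw1, hg, hyc⟩ := hy
    -- index by a finite type
    have hg' : ∀ i ∈ t, ∃ z, f z = g i := hg
    choose! z hz using hg'
    let A : Fin t.card → ℝ≥0 := fun j => ⟨μ.real K * w ((t.equivFin.symm j : t) : ι),
      mul_nonneg hpos.le (hw0 _ (t.equivFin.symm j).2)⟩
    have hA : ∀ j, (A j : ℝ) = μ.real K * w ((t.equivFin.symm j : t) : ι) := fun j => rfl
    refine ⟨t.card, A, fun j => z ((t.equivFin.symm j : t) : ι), fun _ => v,
      fun j => ⟨trivial, hv⟩, fun i => ?_⟩
    have hsum : ∑ j : Fin t.card, (A j : ℝ) *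
          α i (z ((t.equivFin.symm j : t) : ι)) ![v, J v] = μ.real K * y i := by
      have e1 : y i = ∑ k ∈ t, w k * f (z k) i := by
        rw [← hyc, Finset.centerMass_eq_of_sum_1 _ _ hw1, Finset.sum_apply]
        refine Finset.sum_congr rfl fun k hk => ?_
        rw [hz k hk]
        rfl
      rw [e1, Finset.mul_sum, ← Finset.sum_coe_sort t, ← t.equivFin.symm.sum_comp]
      refine Finset.sum_congr rfl fun j _ => ?_
      rw [hA]
      simp only [hfdef]
      ring
    rw [hsum, hval i]
    have e2 : ∫ z in K, f z i ∂μ = μ.real K * (⨍ z in K, f z ∂μ) i := by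
      rw [setAverage_eq]
      simp only [Pi.smul_apply, smul_eq_mul]
      rw [← mul_assoc, mul_inv_cancel₀ hpos.ne', one_mul]
      exact (eval_integral (fun j => hint.eval j) i).symm
    rw [e2, ← mul_sub, abs_mul, abs_of_pos hpos]
    have e3 : |(⨍ z in K, f z ∂μ) i - y i| < ε / μ.real K := by
      refine lt_of_le_of_lt ?_ hyd
      rw [← Real.dist_eq]
      exact dist_le_pi_dist _ _ i
    calc μ.real K * |(⨍ z in K, f z ∂μ) i - y i| < μ.real K * (ε / μ.real K) := by gcongr
      _ = ε := by field_simp

end Pool.Agent.Y525.Leaf
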