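import Pool.Agent.Y525.Leaf.Trop

set_option autoImplicit false

open MeasureTheory Set Topology TopologicalSpace Filter
open scoped ContDiff NNReal Distributions Manifold

/-! The tropical current is on no neighbourhood of `0` a superposition of pseudoholomorphic
curves. -/

namespace Pool.Agent.Y525.Leaf

variable {n q : ℕ}

theorem convex_line_ball (hn : 2 ≤ n) (x₀ y₀ : ℂ) (κ : ℝ × ℝ) (δ : ℝ) :
    Convex ℝ {w : ℂ | vec q hn (x₀ + κ.1 * w) (y₀ + κ.2 * w) ∈ Metric.ball 0 δ} := by
  intro w hw w' hw' a b ha hb hab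
  have h := convex_ball (0 : Space n q) δ hw hw' ha hb hab
  rw [vec_smul, vec_smul, vec_add] at h
  have hab' : (a : ℂ) + b = 1 := by exact_mod_cast hab
  show vec q hn (x₀ + κ.1 * (a • w + b • w')) (y₀ + κ.2 * (a • w + b • w')) ∈ Metric.ball 0 δ
  have e1 : x₀ + κ.1 * (a • w + b • w') = a * (x₀ + κ.1 * w) + b * (x₀ + κ.1 * w') := by
    rw [Complex.real_smul, Complex.real_smul]
    linear_combination (-x₀) * hab'
  have e2 : y₀ + κ.2 * (a • w + b • w') = a * (y₀ + κ.2 * w) + b * (y₀ + κ.2 * w') := by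
    rw [Complex.real_smul, Complex.real_smul]
    linear_combination (-y₀) * hab'
  rw [e1, e2]
  exact h

theorem continuous_vec (hn : 2 ≤ n) (x₀ y₀ : ℂ) (κ : ℝ × ℝ) :
    Continuous fun w : ℂ => vec q hn (x₀ + κ.1 * w) (y₀ + κ.2 * w) := by
  unfold vec
  refine Continuous.prodMk ?_ continuous_const
  have h : ∀ i : Fin n, Continuous fun x : ℂ => EuclideanSpace.single i x := by
    intro i
    have : (fun x : ℂ => EuclideanSpace.single i x) =
        fun x : ℂ => x • EuclideanSpace.single i (1 : ℂ) := by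
      funext x
      ext j
      by_cases hj : j = i
      · subst hj; simp
      · simp [hj]
    rw [this]
    fun_prop
  exact ((h _).comp (by fun_prop)).add ((h _).comp (by fun_prop))

section Ray

variable {U : Opens (Space n q)} {S : Type} [TopologicalSpace S] [ChartedSpace ℂ S]
  {u : S → Space n q}

/-- A proper pseudoholomorphic curve contained in a complex line with real direction `κ` and
imaginary base point, and contained in the tropical variety over a small ball, forces the
tropical line to contain a neighbourhood of `0` in the real line spanned by `κ`. -/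
theorem ray (hn : 2 ≤ n) (hu : IsCurve (leaves n q) U u) {h : S → ℂ} (hh : IsOpenMap h) {τ₁ τ₂ : ℝ}
    {κ : ℝ × ℝ} (hκ : κ.1 ≠ 0 ∨ κ.2 ≠ 0)
    (huh : ∀ s, u s = vec q hn (τ₁ * Complex.I + κ.1 * h s) (τ₂ * Complex.I + κ.2 * h s))
    {δ : ℝ} (hδ : Metric.ball (0 : Space n q) δ ⊆ U)
    (hS : ∀ s, u s ∈ Metric.ball (0 : Space n q) δ → u s ∈ tsupp q hn)
    {s₀ : S} (hs₀ : u s₀ ∈ Metric.ball (0 : Space n q) δ) :
    ∃ η > 0, ∀ r : ℝ, |r| < η → TLine (κ.1 * r) (κ.2 * r) := by
  set γ : ℂ → Space n q := fun w => vec q hn (τ₁ * Complex.I + κ.1 * w) (τ₂ * Complex.I + κ.2 * w)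
    with hγ
  have hγc : Continuous γ := continuous_vec hn _ _ κ
  have hγi : Function.Injective γ := by
    intro w w' hw
    have h0 := congrArg (fun z : Space n q => z.1 (i0 hn)) hw
    have h1 := congrArg (fun z : Space n q => z.1 (i1 hn)) hw
    simp only [hγ, vec_i0, vec_i1, add_right_inj] at h0 h1
    rcases hκ with hk | hk
    · exact mul_left_cancel₀ (Complex.ofReal_ne_zero.2 hk) h0
    · exact mul_left_cancel₀ (Complex.ofReal_ne_zero.2 hk) h1
  have hD : IsPreconnected (γ ⁻¹' Metric.ball 0 δ) :=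
    (convex_line_ball hn (τ₁ * Complex.I) (τ₂ * Complex.I) κ δ).isPreconnected
  have hDo : IsOpen (γ ⁻¹' Metric.ball 0 δ) := Metric.isOpen_ball.preimage hγc
  have hrange := subset_range_of_proper (U := (U : Set (Space n q))) hu.mem hu.proper hh hγc hγi
    huh hD (fun w hw => hδ hw) (s₀ := s₀) (by
      show γ (h s₀) ∈ Metric.ball (0 : Space n q) δ
      rw [huh s₀] at hs₀
      exact hs₀)
  -- kill the real part
  have him : (((h s₀).im : ℝ) : ℂ) * Complex.I ∈ γ ⁻¹' Metric.ball 0 δ := by
    rw [huh s₀, mem_ball_zero_iff] at hs₀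
    rw [mem_preimage, mem_ball_zero_iff]
    refine lt_of_le_of_lt ?_ hs₀
    have key : ∀ (τ k : ℝ), ‖(τ * Complex.I + k * (((h s₀).im : ℝ) * Complex.I) : ℂ)‖ ≤
        ‖(τ * Complex.I + k * h s₀ : ℂ)‖ := by
      intro τ k
      have e1 : (τ * Complex.I + k * (((h s₀).im : ℝ) * Complex.I) : ℂ) =
          ((τ + k * (h s₀).im : ℝ) : ℂ) * Complex.I := by
        push_cast; ring
      rw [e1, norm_mul, Complex.norm_I, mul_one, Complex.norm_real, Real.norm_eq_abs]
      have e2 : (τ + k * (h s₀).im : ℝ) = (τ * Complex.I + k * h s₀ : ℂ).im := by simp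
      rw [e2]
      exact Complex.abs_im_le_norm _
    exact norm_vec_mono hn (key _ _) (key _ _)
  obtain ⟨η, hη, hB⟩ := Metric.isOpen_iff.1 hDo _ him
  refine ⟨η, hη, fun r hr => ?_⟩
  have h1 : (((h s₀).im : ℝ) : ℂ) * Complex.I + (r : ℂ) ∈ γ ⁻¹' Metric.ball 0 δ := by
    apply hB
    rw [Metric.mem_ball, dist_eq_norm, add_sub_cancel_left, Complex.norm_real, Real.norm_eq_abs]
    exact hr
  obtain ⟨s, hs⟩ := hrange h1
  have h2 : u s ∈ Metric.ball (0 : Space n q) δ := by
    rw [huh s, hs]
    exact h1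
  have h3 := (hS s h2).2.2
  rw [huh s, hs, vec_i0, vec_i1] at h3
  simpa using h3

end Ray

section Main

variable {U : Opens (Space n q)} {S : Type} [TopologicalSpace S] [ConnectedSpace S]
  [ChartedSpace ℂ S] {u : S → Space n q}

omit [ConnectedSpace S] in
theorem mdifferentiable_coord {u : S → Space n q} (hu : IsCurve (leaves n q) U u) (j : Fin n) :
    Holo (fun s => (u s).1 j) := by
  intro p
  exact (EuclideanSpace.proj j : EuclideanSpace ℂ (Fin n) →L[ℂ] ℂ).differentiable.comp_differentiableOn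
    (hu.holo p)

omit [ConnectedSpace S] in
theorem not_const (hu : IsCurve (leaves n q) U u) (c : EuclideanSpace ℂ (Fin n)) :
    ¬ ∀ s, (u s).1 = c := by
  intro h
  obtain ⟨s, hs, -⟩ := hu.somewhere_injective
  apply hs
  have : inChart u s = fun _ => (c, (u s).2) := by
    funext w
    exact Prod.ext (h _) (hu.snd_eq _ _)
  rw [this]
  simp

/-- A proper pseudoholomorphic curve contained in the tropical variety over a small ball does not
meet this ball. -/
theorem no_curve (hn : 2 ≤ n) (hu : IsCurve (leaves n q) U u) {δ : ℝ}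
    (hδ : Metric.ball (0 : Space n q) δ ⊆ U)
    (hS : ∀ s, u s ∈ Metric.ball (0 : Space n q) δ → u s ∈ tsupp q hn)
    (s₀ : S) (hs₀ : u s₀ ∈ Metric.ball (0 : Space n q) δ) : False := by
  set V : Set S := u ⁻¹' Metric.ball (0 : Space n q) δ with hV
  have hVo : IsOpen V := Metric.isOpen_ball.preimage hu.continuous
  have hVn : ∀ᶠ s in 𝓝 s₀, s ∈ V := hVo.mem_nhds hs₀
  -- the transverse component vanishes
  have h2 : ∀ s, (u s).2 = 0 := by
    intro s
    rw [hu.snd_eq s s₀]
    exact (hS s₀ hs₀).1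
  -- the other coordinates vanish
  have hoth : ∀ j, j ≠ i0 hn → j ≠ i1 hn → ∀ s, (u s).1 j = 0 := by
    intro j h0 h1
    refine eq_const_of_eventually (mdifferentiable_coord hu j) (s₀ := s₀) ?_
    filter_upwards [hVn] with s hs
    exact (hS s hs).2.1 j h0 h1
  set f := fun s => (u s).1 (i0 hn) with hf
  set g := fun s => (u s).1 (i1 hn) with hg
  have hfd : Holo f := mdifferentiable_coord hu _
  have hgd : Holo g := mdifferentiable_coord hu _
  have hfgd : Holo (fun s => f s - g s) := fun p => (hfd p).sub (hgd p)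
  have huv : ∀ s, u s = vec q hn (f s) (g s) := fun s =>
    eq_vec hn (h2 s) fun j h0 h1 => hoth j h0 h1 s
  have hT : ∀ s ∈ V, TLine (f s).re (g s).re := fun s hs => (hS s hs).2.2
  have hcf : Continuous f := (continuous_coord _).comp hu.continuous
  have hcg : Continuous g := (continuous_coord _).comp hu.continuous
  -- the function `(f, g)` is not constant
  have hnc : ∀ a b, ¬ ∀ s, f s = a ∧ g s = b := by
    intro a b hab
    refine not_const hu (vec q hn a b).1 fun s => ?_
    rw [huv s, (hab s).1, (hab s).2]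
  -- one of the three real parts vanishes on an open set
  by_cases hc1 : ∀ s ∈ V, (f s).re = 0
  · obtain ⟨τ, hτ⟩ := eq_const_of_re_eq_zero hfd hVo ⟨s₀, hs₀⟩ hc1
    have hopen : IsOpenMap g := isOpenMap_of_nonconst hgd fun c => by
      by_contra hc
      push Not at hc
      exact hnc _ _ fun s => ⟨hτ s, hc s⟩
    obtain ⟨η, hη, hr⟩ := ray hn hu hopen (τ₁ := τ) (τ₂ := 0) (κ := (0, 1)) (Or.inr one_ne_zero)
      (fun s => by rw [huv s, hτ s]; simp) hδ hS hs₀
    have := hr (η / 2) (by rw [abs_of_pos (by positivity)]; linarith)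
    unfold TLine at this
    simp at this
    rcases this with h | h | h <;> linarith
  · push Not at hc1
    obtain ⟨s₁, hs₁, hs₁'⟩ := hc1
    set V₁ : Set S := V ∩ {s | (f s).re ≠ 0} with hV₁
    have hV₁o : IsOpen V₁ := hVo.inter
      ((isOpen_ne (x := (0 : ℝ))).preimage (Complex.continuous_re.comp hcf))
    by_cases hc2 : ∀ s ∈ V₁, (g s).re = 0
    · obtain ⟨τ, hτ⟩ := eq_const_of_re_eq_zero hgd hV₁o ⟨s₁, hs₁, hs₁'⟩ hc2
      have hopen : IsOpenMap f := isOpenMap_of_nonconst hfd fun c => by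
        by_contra hc
        push Not at hc
        exact hnc _ _ fun s => ⟨hc s, hτ s⟩
      obtain ⟨η, hη, hr⟩ := ray hn hu hopen (τ₁ := 0) (τ₂ := τ) (κ := (1, 0))
        (Or.inl one_ne_zero) (fun s => by rw [huv s, hτ s]; simp) hδ hS hs₀
      have := hr (η / 2) (by rw [abs_of_pos (by positivity)]; linarith)
      unfold TLine at this
      simp at this
      rcases this with h | h | h <;> linarith
    · push Not at hc2
      obtain ⟨s₂, hs₂, hs₂'⟩ := hc2
      set V₂ : Set S := V₁ ∩ {s | (g s).re ≠ 0} with hV₂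
      have hV₂o : IsOpen V₂ := hV₁o.inter
        ((isOpen_ne (x := (0 : ℝ))).preimage (Complex.continuous_re.comp hcg))
      have hc3 : ∀ s ∈ V₂, (f s - g s).re = 0 := by
        intro s hs
        rcases hT s hs.1.1 with h | h | h
        · exact absurd h.1 hs.1.2
        · exact absurd h.1 hs.2
        · rw [Complex.sub_re, h.1, sub_self]
      obtain ⟨τ, hτ⟩ := eq_const_of_re_eq_zero hfgd hV₂o ⟨s₂, hs₂, hs₂'⟩ hc3
      have hfg : ∀ s, f s = τ * Complex.I + g s := fun s => by
        rw [← hτ s]; ring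
      have hopen : IsOpenMap g := isOpenMap_of_nonconst hgd fun c => by
        by_contra hc
        push Not at hc
        exact hnc _ _ fun s => ⟨by rw [hfg s, hc s], hc s⟩
      obtain ⟨η, hη, hr⟩ := ray hn hu hopen (τ₁ := τ) (τ₂ := 0) (κ := (1, 1))
        (Or.inl one_ne_zero) (fun s => by rw [huv s, hfg s]; simp) hδ hS hs₀
      have := hr (-(η / 2)) (by rw [abs_neg, abs_of_pos (by positivity)]; linarith)
      unfold TLine at this
      simp at this
      rcases this with h | h <;> linarith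

end Main

/-- a test function with given open support contained in a compact part of `U` -/
theorem exists_test {U : Opens (Space n q)} {W : Set (Space n q)} (hW : IsOpen W) {δ : ℝ}
    (hWδ : W ⊆ Metric.ball 0 δ) (hδ : Metric.closedBall (0 : Space n q) δ ⊆ U) :
    ∃ φ : 𝓓(U, ℝ), (∀ z, 0 ≤ φ z) ∧ ∀ z, 0 < φ z ↔ z ∈ W := by
  obtain ⟨f, hf1, hf2, hf3⟩ := hW.exists_contDiff_support_eq (n := ⊤)
  have hsub : tsupport f ⊆ Metric.closedBall 0 δ := by
    refine closure_minimal ?_ Metric.isClosed_closedBall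
    rw [hf1]
    exact hWδ.trans Metric.ball_subset_closedBall
  have hnn : ∀ z, 0 ≤ f z := fun z => (hf3 ⟨z, rfl⟩).1
  refine ⟨⟨f, hf2, (isCompact_closedBall _ _).of_isClosed_subset (isClosed_tsupport _) hsub,
    hsub.trans hδ⟩, hnn, fun z => ?_⟩
  show 0 < f z ↔ z ∈ W
  rw [← hf1, Function.mem_support]
  constructor
  · intro h; exact h.ne'
  · intro h; exact lt_of_le_of_ne (hnn z) (Ne.symm h)

theorem kahler_ne_zero (hn : 2 ≤ n) : kahler n q ≠ 0 := by
  intro h
  have h1 := kahler_vec (q := q) hn 1 0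
  rw [h, norm_vec_sq] at h1
  simp at h1

/-- On no neighbourhood of `0` is the tropical current a superposition of pseudoholomorphic
curves. -/
theorem trop_not_superposition (hn : 2 ≤ n) (U : Opens (Space n q)) (h0 : (0 : Space n q) ∈ U) :
    ¬ IsSuperposition (leaves n q) U (trop q hn) := by
  rintro ⟨mν, ν, hν⟩
  obtain ⟨δ, hδ, hδU⟩ := Metric.nhds_basis_closedBall.mem_iff.1 (U.isOpen.mem_nhds h0)
  obtain ⟨φ, hφ0, hφ⟩ := exists_test (U := U)
    (Metric.isOpen_ball.inter (isClosed_tsupp (q := q) hn).isOpen_compl)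
    (inter_subset_left (s := Metric.ball (0 : Space n q) δ)) hδU
  obtain ⟨χ, hχ0, hχ⟩ := exists_test (U := U) (Metric.isOpen_ball (x := (0 : Space n q)) (ε := δ))
    subset_rfl hδU
  -- the curves of the superposition do not charge `φ`
  have h1 : trop q hn (extendZero (phiForm φ)) = 0 := by
    refine trop_phiForm hn φ fun z hz => ?_
    by_contra hne
    exact ((hφ z).1 (lt_of_le_of_ne (hφ0 z) (Ne.symm hne))).2 hz
  have h2 : 0 < trop q hn (extendZero (phiForm χ)) :=
    trop_phiForm_pos hn χ hχ0 ((hχ 0).2 (Metric.mem_ball_self hδ))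
  have hnn : ∀ (ψ : 𝓓(U, ℝ)), (∀ z, 0 ≤ ψ z) → ∀ c' : curveCurrents (leaves n q) U,
      0 ≤ (c' : Current U 2) (phiForm ψ) := by
    rintro ψ hψ ⟨c', S, i1, i2, i3, i4, i5, u, hu, hI⟩
    exact hu.integral_nonneg hψ (hI (phiForm ψ))
  obtain ⟨hφi, hφe⟩ := hν (phiForm φ)
  obtain ⟨hχi, hχe⟩ := hν (phiForm χ)
  rw [h1] at hφe
  have hae := (integral_eq_zero_iff_of_nonneg (fun c' => hnn φ hφ0 c') hφi).1 hφe.symm
  have key : ∀ c' : curveCurrents (leaves n q) U, (c' : Current U 2) (phiForm φ) = 0 →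
      (c' : Current U 2) (phiForm χ) = 0 := by
    rintro ⟨c', S, i1, i2, i3, i4, i5, u, hu, hI⟩ hz
    have hz' : c' (phiForm φ) = 0 := hz
    show c' (phiForm χ) = 0
    have hIφ := hI (phiForm φ)
    rw [hz'] at hIφ
    have hS : ∀ s, u s ∈ Metric.ball (0 : Space n q) δ → u s ∈ tsupp q hn := by
      intro s hs
      by_contra hns
      have hpos : 0 < φ (u s) := (hφ (u s)).2 ⟨hs, hns⟩
      have hev := hu.eventually_const hφ0 hIφ hpos (kahler_ne_zero hn)
      exact not_const hu _ (eq_const_of_eventually hu.holo hev)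
    have hout : ∀ s, χ (u s) = 0 := by
      intro s
      by_contra hne
      exact no_curve hn hu (Metric.ball_subset_closedBall.trans hδU) hS s
        ((hχ _).1 (lt_of_le_of_ne (hχ0 _) (Ne.symm hne)))
    obtain ⟨N, p, ρ, e1, e2, e3⟩ := hI (phiForm χ)
    rw [e3]
    refine Finset.sum_eq_zero fun k _ => ?_
    refine setIntegral_eq_zero_of_forall_eq_zero fun w _ => ?_
    have : pullbackCoeff u (phiForm χ) (p k) w = 0 := by
      unfold pullbackCoeff
      rw [phiForm_apply, show χ (inChart u (p k) w) = 0 from hout _, zero_smul]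
      rfl
    rw [this, mul_zero]
  have hzero : ∫ c' : curveCurrents (leaves n q) U, (c' : Current U 2) (phiForm χ) ∂ν = 0 := by
    refine integral_eq_zero_of_ae ?_
    filter_upwards [hae] with c' hc'
    exact key c' hc'
  rw [hχe, hzero] at h2
  exact lt_irrefl _ h2

end Pool.Agent.Y525.Leaf
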