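import Pool.Agent.Y525.Leaf.Defs

set_option autoImplicit false

open MeasureTheory Set Topology TopologicalSpace
open scoped ContDiff NNReal Distributions Manifold

/-! The model foliation of `ℂⁿ × ℝ^q` by the leaves `ℂⁿ × {t}` with `J = i`. -/

namespace Pool.Agent.Y525.Leaf

/-- The manifold `M = ℂⁿ × ℝ^q`. -/
abbrev Space (n q : ℕ) : Type := EuclideanSpace ℂ (Fin n) × EuclideanSpace ℝ (Fin q)

/-- The foliation of `ℂⁿ × ℝ^q` by the leaves `ℂⁿ × {t}`, with `J (e, 0) = (i e, 0)`. -/
noncomputable def leaves (n q : ℕ) : FlatLeaves (Space n q) where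
  T := LinearMap.ker (LinearMap.snd ℝ (EuclideanSpace ℂ (Fin n)) (EuclideanSpace ℝ (Fin q)))
  J := ((Complex.I • ContinuousLinearMap.id ℂ (EuclideanSpace ℂ (Fin n))).restrictScalars ℝ).prodMap
    (0 : EuclideanSpace ℝ (Fin q) →L[ℝ] EuclideanSpace ℝ (Fin q))
  map_mem := fun v _ => rfl
  map_map := fun v hv => by
    refine Prod.ext ?_ ?_
    · show Complex.I • Complex.I • v.1 = -v.1
      rw [smul_smul, Complex.I_mul_I, neg_one_smul]
    · have : v.2 = 0 := hv
      show (0 : EuclideanSpace ℝ (Fin q)) = -v.2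
      rw [this, neg_zero]


theorem finrank_Space (n q : ℕ) : Module.finrank ℝ (Space n q) = 2 * n + q := by
  rw [Module.finrank_prod, finrank_euclideanSpace_fin, finrank_real_of_complex,
    finrank_euclideanSpace_fin]

theorem finrank_leaves (n q : ℕ) : Module.finrank ℝ (leaves n q).T = 2 * n := by
  have h := LinearMap.finrank_range_add_finrank_ker
    (LinearMap.snd ℝ (EuclideanSpace ℂ (Fin n)) (EuclideanSpace ℝ (Fin q)))
  rw [LinearMap.range_eq_top.2 (fun y => ⟨(0, y), rfl⟩), finrank_top,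
    finrank_euclideanSpace_fin] at h
  have h2 := finrank_Space n q
  have h3 : Module.finrank ℝ (leaves n q).T = Module.finrank ℝ
    (LinearMap.ker (LinearMap.snd ℝ (EuclideanSpace ℂ (Fin n)) (EuclideanSpace ℝ (Fin q)))) := rfl
  rw [h3]
  rw [h2] at h
  omega

end Pool.Agent.Y525.Leaf
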