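import Pool.Agent.Y525.Leaf.HalfCurrent

set_option autoImplicit false

open MeasureTheory Set Topology TopologicalSpace Filter
open scoped ContDiff NNReal Distributions Manifold

/-! The tropical current `dd^c max (Re z₁, Re z₂, 0)` on `ℂⁿ × ℝ^q`. -/

namespace Pool.Agent.Y525.Leaf

variable {n q : ℕ}

/-- the first index -/
def i0 (hn : 2 ≤ n) : Fin n := ⟨0, by omega⟩

/-- the second index -/
def i1 (hn : 2 ≤ n) : Fin n := ⟨1, by omega⟩

theorem i0_ne_i1 (hn : 2 ≤ n) : i0 hn ≠ i1 hn := by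
  simp [i0, i1]

/-- the point with first coordinates `x, y` and all other coordinates zero -/
noncomputable def vec (q : ℕ) (hn : 2 ≤ n) (x y : ℂ) : Space n q :=
  (EuclideanSpace.single (i0 hn) x + EuclideanSpace.single (i1 hn) y, 0)

theorem vec_i0 (hn : 2 ≤ n) (x y : ℂ) : (vec q hn x y).1 (i0 hn) = x := by
  simp [vec, (i0_ne_i1 hn)]

theorem vec_i1 (hn : 2 ≤ n) (x y : ℂ) : (vec q hn x y).1 (i1 hn) = y := by
  simp [vec, (i0_ne_i1 hn).symm]

theorem vec_other (hn : 2 ≤ n) (x y : ℂ) {j : Fin n} (h0 : j ≠ i0 hn) (h1 : j ≠ i1 hn) :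
    (vec q hn x y).1 j = 0 := by
  simp [vec, h0, h1]

theorem eq_vec (hn : 2 ≤ n) {z : Space n q} (h2 : z.2 = 0)
    (h : ∀ j, j ≠ i0 hn → j ≠ i1 hn → z.1 j = 0) :
    z = vec q hn (z.1 (i0 hn)) (z.1 (i1 hn)) := by
  refine Prod.ext ?_ h2
  ext j
  by_cases h0 : j = i0 hn
  · rw [h0, vec_i0]
  · by_cases h1 : j = i1 hn
    · rw [h1, vec_i1]
    · rw [h j h0 h1, vec_other hn _ _ h0 h1]

theorem vec_add (hn : 2 ≤ n) (x y x' y' : ℂ) :
    vec q hn x y + vec q hn x' y' = vec q hn (x + x') (y + y') := by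
  rw [eq_vec hn (z := vec q hn x y + vec q hn x' y')]
  · simp only [Prod.fst_add, PiLp.add_apply, vec_i0, vec_i1]
  · simp [vec]
  · intro j h0 h1
    simp only [Prod.fst_add, PiLp.add_apply, vec_other hn _ _ h0 h1, add_zero]

theorem vec_smul (hn : 2 ≤ n) (r : ℝ) (x y : ℂ) :
    r • vec q hn x y = vec q hn (r * x) (r * y) := by
  rw [eq_vec hn (z := r • vec q hn x y)]
  · simp only [Prod.smul_fst, PiLp.smul_apply, vec_i0, vec_i1, Complex.real_smul]
  · simp [vec]
  · intro j h0 h1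
    simp only [Prod.smul_fst, PiLp.smul_apply, vec_other hn _ _ h0 h1, smul_zero]

theorem J_vec (hn : 2 ≤ n) (x y : ℂ) :
    J (vec q hn x y) = vec q hn (Complex.I * x) (Complex.I * y) := by
  rw [eq_vec hn (z := J (vec q hn x y))]
  · simp only [J, leaves_J, PiLp.smul_apply, vec_i0, vec_i1, smul_eq_mul]
  · simp [J, leaves_J]
  · intro j h0 h1
    simp only [J, leaves_J, PiLp.smul_apply, vec_other hn _ _ h0 h1, smul_zero]

theorem vec_zero (hn : 2 ≤ n) : vec q hn 0 0 = 0 := by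
  rw [eq_vec hn (z := (0 : Space n q)) rfl fun _ _ _ => rfl]
  rfl

theorem norm_vec_sq (hn : 2 ≤ n) (x y : ℂ) : ‖vec q hn x y‖ ^ 2 = ‖x‖ ^ 2 + ‖y‖ ^ 2 := by
  have h1 : ‖vec q hn x y‖ = ‖(vec q hn x y).1‖ := by
    rw [Prod.norm_def]
    simp [vec]
  rw [h1, EuclideanSpace.norm_sq_eq, Finset.sum_eq_add (i0 hn) (i1 hn) (i0_ne_i1 hn)]
  · rw [vec_i0, vec_i1]
  · intro j _ h
    rw [vec_other hn _ _ h.1 h.2]
    simp
  · intro h; exact absurd (Finset.mem_univ _) h
  · intro h; exact absurd (Finset.mem_univ _) h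

theorem norm_vec_mono (hn : 2 ≤ n) {x y x' y' : ℂ} (hx : ‖x‖ ≤ ‖x'‖) (hy : ‖y‖ ≤ ‖y'‖) :
    ‖vec q hn x y‖ ≤ ‖vec q hn x' y'‖ := by
  have h : ‖vec q hn x y‖ ^ 2 ≤ ‖vec q hn x' y'‖ ^ 2 := by
    rw [norm_vec_sq, norm_vec_sq]
    gcongr
  exact (sq_le_sq₀ (norm_nonneg _) (norm_nonneg _)).1 h

theorem isLeafwise_vec (hn : 2 ≤ n) (x y : ℂ) : IsLeafwise (vec q hn x y) := rfl

/-- the parametrisation of the three half hyperplanes -/
noncomputable def hpar (q : ℕ) (hn : 2 ≤ n) (κ : ℝ × ℝ) : ℝ × ℝ × ℝ →L[ℝ] Space n q :=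
  par (vec q hn κ.1 κ.2) (vec q hn Complex.I 0) (vec q hn 0 Complex.I)

theorem hpar_apply (hn : 2 ≤ n) (κ : ℝ × ℝ) (x : ℝ × ℝ × ℝ) :
    hpar q hn κ x = vec q hn (x.1 * κ.1 + x.2.1 * Complex.I) (x.1 * κ.2 + x.2.2 * Complex.I) := by
  unfold hpar
  rw [par_apply, vec_smul, vec_smul, vec_smul, vec_add, vec_add]
  simp

theorem hpar_injective (hn : 2 ≤ n) {κ : ℝ × ℝ} (hκ : κ.1 ≠ 0 ∨ κ.2 ≠ 0) :
    Function.Injective (hpar q hn κ) := by
  intro x y h
  rw [hpar_apply, hpar_apply] at h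
  have h0 := congrArg (fun z : Space n q => z.1 (i0 hn)) h
  have h1 := congrArg (fun z : Space n q => z.1 (i1 hn)) h
  simp only [vec_i0, vec_i1] at h0 h1
  have r0 := congrArg Complex.re h0
  have r1 := congrArg Complex.re h1
  have m0 := congrArg Complex.im h0
  have m1 := congrArg Complex.im h1
  simp at r0 r1 m0 m1
  have : x.1 = y.1 := by
    rcases hκ with hk | hk
    · rcases r0 with r | r
      · exact r
      · exact absurd r hk
    · rcases r1 with r | r
      · exact r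
      · exact absurd r hk
  exact Prod.ext this (Prod.ext m0 m1)

/-- the current of a half hyperplane -/
noncomputable def hcur (q : ℕ) (hn : 2 ≤ n) (κ : ℝ × ℝ) : Current (⊤ : Opens (Space n q)) 2 :=
  halfCurrent (vec q hn κ.1 κ.2) (vec q hn Complex.I 0) (vec q hn 0 Complex.I)

theorem hcur_apply (hn : 2 ≤ n) {κ : ℝ × ℝ} (hκ : κ.1 ≠ 0 ∨ κ.2 ≠ 0)
    (α : TestForm (⊤ : Opens (Space n q)) 2) : hcur q hn κ α =
      ∫ x in half, α (hpar q hn κ x) ![vec q hn κ.1 κ.2, J (vec q hn κ.1 κ.2)] :=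
  halfCurrent_apply (hpar_injective hn hκ) α

theorem hcur_d (hn : 2 ≤ n) {κ : ℝ × ℝ} (hκ : κ.1 ≠ 0 ∨ κ.2 ≠ 0)
    (β : TestForm (⊤ : Opens (Space n q)) 1) : hcur q hn κ (d β) =
      ∫ t : ℝ × ℝ, β (t.1 • vec q hn Complex.I 0 + t.2 • vec q hn 0 Complex.I)
        ![J (vec q hn κ.1 κ.2)] := by
  refine halfCurrent_d (hpar_injective hn hκ) (κ := κ) ?_ β
  rw [J_vec, vec_smul, vec_smul, vec_add]
  simp [mul_comm]

/-- the tropical current -/
noncomputable def trop (q : ℕ) (hn : 2 ≤ n) : Current (⊤ : Opens (Space n q)) 2 :=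
  hcur q hn (1, 0) + (hcur q hn (0, 1) + hcur q hn (-1, -1))

theorem trop_isCCurrent (hn : 2 ≤ n) : IsCCurrent (leaves n q) (trop q hn) := by
  refine isCCurrent_add ?_ (isCCurrent_add ?_ ?_)
  · exact isCCurrent_halfCurrent (hpar_injective hn (κ := (1, 0)) (Or.inl one_ne_zero))
      (isLeafwise_vec hn _ _)
  · exact isCCurrent_halfCurrent (hpar_injective hn (κ := (0, 1)) (Or.inr one_ne_zero))
      (isLeafwise_vec hn _ _)
  · exact isCCurrent_halfCurrent (hpar_injective hn (κ := (-1, -1)) (Or.inl (by norm_num)))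
      (isLeafwise_vec hn _ _)

theorem eval_add {U : Opens (Space n q)} (β : TestForm U 1) (z v w : Space n q) :
    β z ![v + w] = β z ![v] + β z ![w] := by
  have h := (β z).map_update_add ![v] 0 v w
  have e : ∀ x : Space n q, Function.update ![v] (0 : Fin 1) x = ![x] := by
    intro x; funext i; fin_cases i; simp
  rw [e, e, e] at h
  exact h

theorem eval_zero {U : Opens (Space n q)} (β : TestForm U 1) (z : Space n q) :
    β z ![0] = 0 := by
  have h := eval_add β z 0 0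
  rw [add_zero] at h
  linarith

theorem integrable_edge (hn : 2 ≤ n) {U : Opens (Space n q)} (β : TestForm U 1)
    (w : Space n q) : Integrable fun t : ℝ × ℝ =>
      β (t.1 • vec q hn Complex.I 0 + t.2 • vec q hn 0 Complex.I) ![w] := by
  have h1 := hasCompactSupport_slice
    (hasCompactSupport_eval β ![w] (hpar_injective (q := q) hn (κ := (1, 0))
      (Or.inl one_ne_zero))) 0
  have h2 : Continuous fun t : ℝ × ℝ =>
      β (par (vec q hn 1 0) (vec q hn Complex.I 0) (vec q hn 0 Complex.I) (0, t)) ![w] :=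
    (continuous_eval β ![w]).comp ((par _ _ _).continuous.comp (by fun_prop))
  have h3 : (fun t : ℝ × ℝ => β (t.1 • vec q hn Complex.I 0 + t.2 • vec q hn 0 Complex.I) ![w]) =
      fun t : ℝ × ℝ =>
      β (par (vec q hn 1 0) (vec q hn Complex.I 0) (vec q hn 0 Complex.I) (0, t)) ![w] := by
    funext t
    simp [par_apply]
  rw [h3]
  refine h2.integrable_of_hasCompactSupport ?_
  simpa using h1

theorem trop_isCycle (hn : 2 ≤ n) : IsCycle (trop q hn) := by
  intro β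
  unfold trop
  rw [add_apply, add_apply, hcur_d hn (Or.inl (by norm_num)), hcur_d hn (Or.inr (by norm_num)),
    hcur_d hn (Or.inl (by norm_num)), ← integral_add, ← integral_add]
  · refine integral_eq_zero_of_ae (Eventually.of_forall fun t => ?_)
    simp only [Pi.zero_apply]
    rw [← eval_add, ← eval_add, J_vec, J_vec, J_vec, vec_add, vec_add]
    have e1 : (Complex.I * (((1 : ℝ), (0 : ℝ)) : ℝ × ℝ).1 +
      (Complex.I * (((0 : ℝ), (1 : ℝ)) : ℝ × ℝ).1 +
        Complex.I * (((-1 : ℝ), (-1 : ℝ)) : ℝ × ℝ).1)) = 0 := by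
      simp
    have e2 : (Complex.I * (((1 : ℝ), (0 : ℝ)) : ℝ × ℝ).2 +
      (Complex.I * (((0 : ℝ), (1 : ℝ)) : ℝ × ℝ).2 +
        Complex.I * (((-1 : ℝ), (-1 : ℝ)) : ℝ × ℝ).2)) = 0 := by
      simp
    rw [e1, e2, vec_zero, eval_zero]
  · exact integrable_edge hn β _
  · exact (integrable_edge hn β _).add (integrable_edge hn β _)
  · exact integrable_edge hn β _
  · exact integrable_edge hn β _

/-- the tropical line -/
def TLine (x y : ℝ) : Prop := (x = 0 ∧ y ≤ 0) ∨ (y = 0 ∧ x ≤ 0) ∨ (x = y ∧ 0 ≤ x)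

/-- the support of the tropical current -/
def tsupp (q : ℕ) (hn : 2 ≤ n) : Set (Space n q) :=
  {z | z.2 = 0 ∧ (∀ j, j ≠ i0 hn → j ≠ i1 hn → z.1 j = 0) ∧
    TLine (z.1 (i0 hn)).re (z.1 (i1 hn)).re}

theorem continuous_coord (j : Fin n) : Continuous fun z : Space n q => z.1 j :=
  (EuclideanSpace.proj (𝕜 := ℂ) j).continuous.comp continuous_fst

theorem isClosed_tsupp (hn : 2 ≤ n) : IsClosed (tsupp q hn) := by
  have c0 : Continuous fun z : Space n q => (z.1 (i0 hn)).re :=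
    Complex.continuous_re.comp (continuous_coord _)
  have c1 : Continuous fun z : Space n q => (z.1 (i1 hn)).re :=
    Complex.continuous_re.comp (continuous_coord _)
  have h1 : IsClosed {z : Space n q | z.2 = 0} := isClosed_eq continuous_snd continuous_const
  have h2 : IsClosed {z : Space n q | ∀ j, j ≠ i0 hn → j ≠ i1 hn → z.1 j = 0} := by
    have : {z : Space n q | ∀ j, j ≠ i0 hn → j ≠ i1 hn → z.1 j = 0} =
        ⋂ j, ⋂ (_ : j ≠ i0 hn), ⋂ (_ : j ≠ i1 hn), {z | z.1 j = 0} := by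
      ext z; simp
    rw [this]
    exact isClosed_iInter fun j => isClosed_iInter fun _ => isClosed_iInter fun _ =>
      isClosed_eq (continuous_coord j) continuous_const
  have h3 : IsClosed {z : Space n q | TLine (z.1 (i0 hn)).re (z.1 (i1 hn)).re} := by
    refine IsClosed.union ?_ (IsClosed.union ?_ ?_)
    · exact (isClosed_eq c0 continuous_const).inter (isClosed_le c1 continuous_const)
    · exact (isClosed_eq c1 continuous_const).inter (isClosed_le c0 continuous_const)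
    · exact (isClosed_eq c0 c1).inter (isClosed_le continuous_const c0)
  exact h1.inter (h2.inter h3)

theorem hpar_mem_tsupp (hn : 2 ≤ n) {κ : ℝ × ℝ}
    (hκ : κ = (1, 0) ∨ κ = (0, 1) ∨ κ = (-1, -1)) {x : ℝ × ℝ × ℝ} (hx : x ∈ half) :
    hpar q hn κ x ∈ tsupp q hn := by
  have hx1 : x.1 ≤ 0 := hx.1
  rw [hpar_apply]
  refine ⟨rfl, fun j h0 h1 => vec_other hn _ _ h0 h1, ?_⟩
  rw [vec_i0, vec_i1]
  unfold TLine
  rcases hκ with rfl | rfl | rfl
  · simp; right; left; exact hx1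
  · simp; left; exact hx1
  · simp; exact Or.inr hx1

theorem trop_phiForm (hn : 2 ≤ n) {U : Opens (Space n q)} (φ : 𝓓(U, ℝ))
    (hφ : ∀ z ∈ tsupp q hn, φ z = 0) : trop q hn (extendZero (phiForm φ)) = 0 := by
  have key : ∀ κ : ℝ × ℝ, (κ = (1, 0) ∨ κ = (0, 1) ∨ κ = (-1, -1)) → (κ.1 ≠ 0 ∨ κ.2 ≠ 0) →
      hcur q hn κ (extendZero (phiForm φ)) = 0 := by
    intro κ h1 h2
    rw [hcur_apply hn h2]
    refine setIntegral_eq_zero_of_forall_eq_zero fun x hx => ?_
    have : extendZero (phiForm φ) (hpar q hn κ x) = φ (hpar q hn κ x) • kahler n q := rfl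
    rw [this, hφ _ (hpar_mem_tsupp hn h1 hx), zero_smul]
    rfl
  unfold trop
  rw [add_apply, add_apply, key _ (Or.inl rfl) (Or.inl one_ne_zero),
    key _ (Or.inr (Or.inl rfl)) (Or.inr one_ne_zero),
    key _ (Or.inr (Or.inr rfl)) (Or.inl (by norm_num))]
  norm_num

theorem kahler_vec (hn : 2 ≤ n) (x y : ℂ) :
    kahler n q ![vec q hn x y, J (vec q hn x y)] = ‖vec q hn x y‖ ^ 2 := by
  rw [kahler_J _ _ rfl]
  congr 1
  rw [Prod.norm_def]
  simp [vec]

theorem trop_phiForm_pos (hn : 2 ≤ n) {U : Opens (Space n q)} (φ : 𝓓(U, ℝ))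
    (hφ : ∀ z, 0 ≤ φ z) (h0 : 0 < φ 0) : 0 < trop q hn (extendZero (phiForm φ)) := by
  have key : ∀ κ : ℝ × ℝ, (κ.1 ≠ 0 ∨ κ.2 ≠ 0) →
      hcur q hn κ (extendZero (phiForm φ)) =
        ∫ x in half, φ (hpar q hn κ x) * ‖vec q hn κ.1 κ.2‖ ^ 2 := by
    intro κ h2
    rw [hcur_apply hn h2]
    refine setIntegral_congr_fun measurableSet_half fun x _ => ?_
    have : extendZero (phiForm φ) (hpar q hn κ x) = φ (hpar q hn κ x) • kahler n q := rfl
    simp only [this]
    rw [ContinuousAlternatingMap.smul_apply, kahler_vec, smul_eq_mul]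
  have hnn : ∀ κ : ℝ × ℝ, (κ.1 ≠ 0 ∨ κ.2 ≠ 0) →
      0 ≤ hcur q hn κ (extendZero (phiForm φ)) := by
    intro κ h2
    rw [key κ h2]
    exact setIntegral_nonneg measurableSet_half fun x _ => mul_nonneg (hφ _) (by positivity)
  have hp : 0 < hcur q hn (1, 0) (extendZero (phiForm φ)) := by
    refine lt_of_le_of_ne (hnn _ (Or.inl one_ne_zero)) fun heq => ?_
    rw [key _ (Or.inl one_ne_zero)] at heq
    have hcont : Continuous fun x => φ (hpar q hn (1, 0) x) *
        ‖vec q hn (((1, 0) : ℝ × ℝ).1 : ℂ) (((1, 0) : ℝ × ℝ).2 : ℂ)‖ ^ 2 :=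
      (φ.continuous.comp (hpar q hn (1, 0)).continuous).mul continuous_const
    have hint : IntegrableOn (fun x => φ (hpar q hn (1, 0) x) *
        ‖vec q hn (((1, 0) : ℝ × ℝ).1 : ℂ) (((1, 0) : ℝ × ℝ).2 : ℂ)‖ ^ 2) half := by
      refine (hcont.integrable_of_hasCompactSupport ?_).integrableOn
      refine HasCompactSupport.mul_right ?_
      exact φ.hasCompactSupport.comp_isClosedEmbedding
        (isClosedEmbedding_par (hpar_injective hn (κ := (1, 0)) (Or.inl one_ne_zero)))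
    have hae := (setIntegral_eq_zero_iff_of_nonneg_ae (Eventually.of_forall fun x =>
      mul_nonneg (hφ _) (by positivity)) hint).1 heq.symm
    have hO : IsOpen (Iio (0 : ℝ) ×ˢ (univ : Set (ℝ × ℝ))) := isOpen_Iio.prod isOpen_univ
    have hsub : (Iio (0 : ℝ) ×ˢ (univ : Set (ℝ × ℝ))) ⊆ half :=
      prod_mono Iio_subset_Iic_self subset_rfl
    have hae' := ae_restrict_of_ae_restrict_of_subset hsub hae
    have hEq := Measure.eqOn_open_of_ae_eq (μ := (volume : Measure (ℝ × ℝ × ℝ))) hae' hO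
      hcont.continuousOn continuousOn_const
    -- by continuity the function is positive near `0`
    have hlim : Tendsto (fun s : ℝ => φ (hpar q hn (1, 0) (s, 0))) (𝓝[<] 0)
        (𝓝 (φ (hpar q hn (1, 0) (0, 0)))) := by
      have : Continuous fun s : ℝ => φ (hpar q hn (1, 0) (s, 0)) :=
        φ.continuous.comp ((hpar q hn (1, 0)).continuous.comp (by fun_prop))
      exact (this.tendsto 0).mono_left nhdsWithin_le_nhds
    have hz : hpar q hn (1, 0) ((0 : ℝ), (0 : ℝ × ℝ)) = 0 := by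
      have : ((0 : ℝ), (0 : ℝ × ℝ)) = 0 := rfl
      rw [this, map_zero]
    rw [hz] at hlim
    have hev : ∀ᶠ s : ℝ in 𝓝[<] 0, φ (hpar q hn (1, 0) (s, 0)) = 0 := by
      filter_upwards [self_mem_nhdsWithin] with s hs
      have h3 := hEq (x := (s, 0)) ⟨hs, trivial⟩
      simp only [Pi.zero_apply] at h3
      rcases mul_eq_zero.1 h3 with h | h
      · exact h
      · exfalso
        rw [norm_vec_sq] at h
        simp at h
    have hlim2 : Tendsto (fun s : ℝ => φ (hpar q hn (1, 0) (s, 0))) (𝓝[<] 0) (𝓝 0) :=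
      tendsto_const_nhds.congr' (by filter_upwards [hev] with s hs; exact hs.symm)
    have := tendsto_nhds_unique hlim hlim2
    linarith
  unfold trop
  rw [add_apply, add_apply]
  have h2 := hnn (0, 1) (Or.inr one_ne_zero)
  have h3 := hnn (-1, -1) (Or.inl (by norm_num))
  linarith

end Pool.Agent.Y525.Leaf
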